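import Pool.Agent.H869R3.FN.Main

/-!
Infinite subfamilies of a coding.
-/

set_option autoImplicit false

namespace Pool.Agent.H869R3.FN

open Nat.Partrec (Code)
open Encodable
open Pool.Agent.H639.LU
open Pool.Agent.Helper446.Defs Pool.Agent.Helper446.Oracle

/-- the number of ones among the first `n` even places of the string -/
def cs2 (n : ℕ) (σ : Str) : ℕ :=
  Nat.rec 0 (fun t acc => acc + ((σ[2 * t]?).getD false).toNat) n

/-- the number of ones among the first `n` places of the string -/
def cs1 (n : ℕ) (σ : Str) : ℕ :=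
  Nat.rec 0 (fun t acc => acc + ((σ[t]?).getD false).toNat) n

theorem cs2_prim : Primrec (fun p : ℕ × Str => cs2 p.1 p.2) := by
  have hb : Primrec (fun b : Bool => b.toNat) := Primrec.dom_finite _
  have h : Primrec₂ (fun (p : ℕ × Str) (q : ℕ × ℕ) =>
      q.2 + ((p.2[2 * q.1]?).getD false).toNat) := by
    refine Primrec.nat_add.comp (Primrec.snd.comp Primrec.snd) (hb.comp ?_)
    refine Primrec.option_getD.comp ?_ (Primrec.const false)
    refine Primrec.list_getElem?.comp (Primrec.snd.comp Primrec.fst) ?_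
    exact Primrec.nat_mul.comp (Primrec.const 2) (Primrec.fst.comp Primrec.snd)
  exact Primrec.nat_rec' Primrec.fst (Primrec.const 0) h

theorem cs1_prim : Primrec (fun p : ℕ × Str => cs1 p.1 p.2) := by
  have hb : Primrec (fun b : Bool => b.toNat) := Primrec.dom_finite _
  have h : Primrec₂ (fun (p : ℕ × Str) (q : ℕ × ℕ) =>
      q.2 + ((p.2[q.1]?).getD false).toNat) := by
    refine Primrec.nat_add.comp (Primrec.snd.comp Primrec.snd) (hb.comp ?_)
    refine Primrec.option_getD.comp ?_ (Primrec.const false)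
    exact Primrec.list_getElem?.comp (Primrec.snd.comp Primrec.fst)
      (Primrec.fst.comp Primrec.snd)
  exact Primrec.nat_rec' Primrec.fst (Primrec.const 0) h

theorem cs2_seg (N X XN : ℕ → Bool) (h : ∀ n, XN (2 * n) = N n) (n : ℕ) :
    ∀ s, 2 * n ≤ s → cs2 n (seg XN s) = Nat.count (fun x => N x = true) n := by
  induction n with
  | zero => intro s _; simp [cs2]
  | succ n ih =>
    intro s hs
    have e : cs2 (n + 1) (seg XN s) =
        cs2 n (seg XN s) + (((seg XN s)[2 * n]?).getD false).toNat := rfl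
    rw [e, ih s (by omega), Nat.count_succ, seg_get, if_pos (by omega), Option.getD_some, h]
    cases N n <;> simp

theorem cs1_seg (N : ℕ → Bool) (n : ℕ) :
    ∀ s, n ≤ s → cs1 n (seg N s) = Nat.count (fun x => N x = true) n := by
  induction n with
  | zero => intro s _; simp [cs1]
  | succ n ih =>
    intro s hs
    have e : cs1 (n + 1) (seg N s) =
        cs1 n (seg N s) + (((seg N s)[n]?).getD false).toNat := rfl
    rw [e, ih s (by omega), Nat.count_succ, seg_get, if_pos (by omega), Option.getD_some]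
    cases N n <;> simp

/-- the program which reads `n`, finds its index in the set, and runs the program of that index -/
def prog2 (p : ℕ × Str) : Part ℕ :=
  if fst1 p.2 < p.2.length ∧ 2 * fst1 p.2 ≤ (p.2.drop (fst1 p.2 + 1)).length then
    (Denumerable.ofNat Code (cs2 (fst1 p.2) (p.2.drop (fst1 p.2 + 1)))).eval
      (encode (p.1, (K9_odd (p.2.drop (fst1 p.2 + 1))).take
        (p.2.drop (fst1 p.2 + 1)).length.unpair.1))
  else Part.none

theorem prog2_partrec : Partrec prog2 := by
  have c1 : Computable (fun p : ℕ × Str => fst1 p.2) := fst1_prim.to_comp.comp Computable.snd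
  have c2 : Computable (fun p : ℕ × Str => p.2.length) :=
    Computable.list_length.comp Computable.snd
  have c3 : Computable (fun p : ℕ × Str => decide (fst1 p.2 < p.2.length)) :=
    (Primrec.nat_lt.decide.to_comp).comp c1 c2
  have c8 : Computable (fun p : ℕ × Str => p.2.drop (fst1 p.2 + 1)) :=
    Primrec.list_drop.to_comp.comp (Computable.succ.comp c1) Computable.snd
  have c9 : Computable (fun p : ℕ × Str => (p.2.drop (fst1 p.2 + 1)).length) :=
    Computable.list_length.comp c8
  have c4 : Computable (fun p : ℕ × Str =>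
      decide (2 * fst1 p.2 ≤ (p.2.drop (fst1 p.2 + 1)).length)) :=
    (Primrec.nat_le.decide.to_comp).comp (by fun_prop) c9
  have c5 : Computable (fun p : ℕ × Str => decide (fst1 p.2 < p.2.length) &&
      decide (2 * fst1 p.2 ≤ (p.2.drop (fst1 p.2 + 1)).length)) := by fun_prop
  have c6 : Computable (fun p : ℕ × Str => cs2 (fst1 p.2) (p.2.drop (fst1 p.2 + 1))) :=
    cs2_prim.to_comp.comp (c1.pair c8)
  have c7 : Computable (fun p : ℕ × Str => (K9_odd (p.2.drop (fst1 p.2 + 1))).take
        (p.2.drop (fst1 p.2 + 1)).length.unpair.1) :=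
    Primrec.list_take.to_comp.comp (Computable.fst.comp (Computable.unpair.comp c9))
      (K9_odd_comp.comp c8)
  have c10 : Partrec (fun p : ℕ × Str =>
      (Denumerable.ofNat Code (cs2 (fst1 p.2) (p.2.drop (fst1 p.2 + 1)))).eval
      (encode (p.1, (K9_odd (p.2.drop (fst1 p.2 + 1))).take
        (p.2.drop (fst1 p.2 + 1)).length.unpair.1))) :=
    Nat.Partrec.Code.eval_part.comp ((Computable.ofNat Code).comp c6)
      (Computable.encode.comp (Computable.fst.pair c7))
  refine (Partrec.cond c5 c10 Partrec.none).of_eq fun p => ?_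
  unfold prog2
  by_cases g1 : fst1 p.2 < p.2.length <;>
    by_cases g2 : 2 * fst1 p.2 ≤ (p.2.drop (fst1 p.2 + 1)).length <;> simp only [g1, g2,
      decide_true, decide_false, Bool.and_self, Bool.and_false, Bool.false_and, Bool.true_and,
      cond_true, cond_false, and_self, and_false, false_and, if_true, if_false]

theorem exists_univ2 : ∃ c : Code, ∀ (n : ℕ) (N X XN Y : ℕ → Bool),
    (∀ m, XN (2 * m) = N m) → (∀ m, XN (2 * m + 1) = X m) →
    Red (Denumerable.ofNat Code (Nat.count (fun x => N x = true) n)) X Y →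
    Red c (pf n XN) Y := by
  obtain ⟨c, hc⟩ := code_of prog2_partrec
  refine ⟨c, fun n N X XN Y h0 h1 hr m v => ?_⟩
  rw [← hr m v]
  have key : ∀ s, n < s → 2 * n ≤ s - n - 1 → c.eval (encode (m, seg (pf n XN) s)) =
      (Denumerable.ofNat Code (Nat.count (fun x => N x = true) n)).eval
        (encode (m, seg X (min (s - n - 1).unpair.1 ((s - n - 1) / 2)))) := by
    intro s g g2
    rw [hc]
    unfold prog2
    simp only [fst1_long n XN g, seg_len, drop_long n XN g]
    rw [if_pos ⟨g, g2⟩, cs2_seg N X XN h0 n _ g2, K9_odd_seg X XN h1]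
    congr 3
    apply List.ext_getElem?
    intro i
    rw [List.getElem?_take, seg_get, seg_get]
    by_cases g3 : i < (s - n - 1).unpair.1
    · rw [if_pos g3]
      by_cases g4 : i < (s - n - 1) / 2
      · rw [if_pos g4, if_pos (by omega)]
      · rw [if_neg g4, if_neg (by omega)]
    · rw [if_neg g3, if_neg (by omega)]
  have key2 : ∀ s, ¬ (n < s ∧ 2 * n ≤ s - n - 1) →
      c.eval (encode (m, seg (pf n XN) s)) = Part.none := by
    intro s g
    rw [hc]
    unfold prog2
    by_cases g1 : n < s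
    · simp only [fst1_long n XN g1, seg_len, drop_long n XN g1]
      rw [if_neg g]
    · rw [if_neg]
      rintro ⟨g3, -⟩
      exact fst1_short n XN (by omega) g3
  constructor
  · rintro ⟨s, hs⟩
    by_cases g : n < s ∧ 2 * n ≤ s - n - 1
    · rw [key s g.1 g.2] at hs
      exact ⟨_, hs⟩
    · rw [key2 s g] at hs
      exact absurd hs (Part.notMem_none v)
  · rintro ⟨s, hs⟩
    have e1 : 2 * n + 2 * s ≤ Nat.pair s (2 * n + 2 * s) := Nat.right_le_pair _ _
    refine ⟨Nat.pair s (2 * n + 2 * s) + n + 1, ?_⟩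
    have e2 : Nat.pair s (2 * n + 2 * s) + n + 1 - n - 1 = Nat.pair s (2 * n + 2 * s) := by
      omega
    rw [key _ (by omega) (by rw [e2]; omega), e2, Nat.unpair_pair]
    have e3 : min s (Nat.pair s (2 * n + 2 * s) / 2) = s := by omega
    rw [e3]
    exact hs

/-- the local theorem for infinite subfamilies -/
def LocN (r : Code) (S : ℕ → (ℕ → Bool) → ℕ → Bool) (k : ℕ) : Prop :=
  ∃ z₁ : ℕ → Bool, ∀ X : ℕ → Bool, le z₁ X → ∀ N : ℕ → Bool, {n | N n = true}.Infinite →
    le N X → ∀ V : ℕ → Bool, le X V → ∀ e : Code,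
    (∀ n : ℕ, N n = true → {l : Code | W e V (encode (n, l))}.encard ≤ k) →
    (∀ n : ℕ, N n = true →
      ∃ l : Code, W e V (encode (n, l)) ∧ Red l V (ch (W r (S n X)))) →
    le (ch (J X)) V

theorem cnt_re (N : ℕ → Bool) : REIn (St N) (fun p : ℕ => N p.unpair.1 = true ∧
    Nat.count (fun x => N x = true) p.unpair.1 = p.unpair.2) := by
  refine (K2 ℕ N _).2 ⟨fun p σ => p.unpair.1 < σ.length ∧ σ[p.unpair.1]? = some true ∧
    cs1 p.unpair.1 σ = p.unpair.2, ?_, fun p => ?_⟩
  · have c1 : Computable (fun x : ℕ × Str => decide (x.1.unpair.1 < x.2.length)) :=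
      (Primrec.nat_lt.decide.to_comp).comp (by fun_prop) (by fun_prop)
    have h1 : REPred (fun x : ℕ × Str => x.1.unpair.1 < x.2.length) :=
      (Pool.Agent.Helper446.RE.eq (f := fun x : ℕ × Str => decide (x.1.unpair.1 < x.2.length))
        (g := fun _ => true) c1 (by fun_prop)).of_eq (fun x => by simp)
    refine Pool.Agent.Helper446.RE.and h1 (Pool.Agent.Helper446.RE.and ?_ ?_)
    · exact Pool.Agent.Helper446.RE.eq (by fun_prop) (by fun_prop)
    · refine Pool.Agent.Helper446.RE.eq ?_ (by fun_prop)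
      exact cs1_prim.to_comp.comp
        (Computable.pair (f := fun x : ℕ × Str => x.1.unpair.1) (g := fun x => x.2)
          (by fun_prop) (by fun_prop))
  · constructor
    · rintro ⟨h1, h2⟩
      refine ⟨p.unpair.1 + 1, by rw [seg_len]; omega, ?_, ?_⟩
      · rw [seg_get, if_pos (by omega), h1]
      · rw [cs1_seg N _ _ (by omega), h2]
    · rintro ⟨s, h1, h2, h3⟩
      rw [seg_len] at h1
      rw [seg_get, if_pos h1] at h2
      rw [cs1_seg N _ _ (by omega)] at h3
      exact ⟨by simpa using h2, h3⟩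

theorem join_le {N X XN : ℕ → Bool} (h0 : ∀ n, XN (2 * n) = N n)
    (h1 : ∀ n, XN (2 * n + 1) = X n) {Z : ℕ → Bool} (hN : le N Z) (hX : le X Z) : le XN Z := by
  have hz := turingReducible_iff.1 hN
  have hx := turingReducible_iff.1 hX
  refine turingReducible_iff.2 ⟨?_, ?_⟩
  · have h3 : REIn (St Z) (fun n : ℕ => (∃ m : ℕ, 2 * m = n ∧ m ∈ St N) ∨
        ∃ m : ℕ, 2 * m + 1 = n ∧ m ∈ St X) := by
      refine REIn.or ?_ ?_
      · refine REIn.ex (S := fun (n m : ℕ) => 2 * m = n ∧ m ∈ St N) (REIn.and ?_ ?_)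
        · exact REIn.of_re (Pool.Agent.Helper446.RE.eq (by fun_prop) (by fun_prop))
        · exact hz.1.comp (f := fun x : ℕ × ℕ => x.2) (by fun_prop)
      · refine REIn.ex (S := fun (n m : ℕ) => 2 * m + 1 = n ∧ m ∈ St X) (REIn.and ?_ ?_)
        · exact REIn.of_re (Pool.Agent.Helper446.RE.eq (by fun_prop) (by fun_prop))
        · exact hx.1.comp (f := fun x : ℕ × ℕ => x.2) (by fun_prop)
    refine h3.of_eq fun n => ?_
    constructor
    · rintro (⟨m, rfl, hm⟩ | ⟨m, rfl, hm⟩)
      · change XN (2 * m) = true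
        rw [h0]; exact hm
      · change XN (2 * m + 1) = true
        rw [h1]; exact hm
    · intro hn
      change XN n = true at hn
      rcases Nat.even_or_odd' n with ⟨m, rfl | rfl⟩
      · left; exact ⟨m, rfl, by rw [h0] at hn; exact hn⟩
      · right; exact ⟨m, rfl, by rw [h1] at hn; exact hn⟩
  · have h3 : REIn (St Z) (fun n : ℕ => (∃ m : ℕ, 2 * m = n ∧ m ∉ St N) ∨
        ∃ m : ℕ, 2 * m + 1 = n ∧ m ∉ St X) := by
      refine REIn.or ?_ ?_
      · refine REIn.ex (S := fun (n m : ℕ) => 2 * m = n ∧ m ∉ St N) (REIn.and ?_ ?_)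
        · exact REIn.of_re (Pool.Agent.Helper446.RE.eq (by fun_prop) (by fun_prop))
        · exact hz.2.comp (f := fun x : ℕ × ℕ => x.2) (by fun_prop)
      · refine REIn.ex (S := fun (n m : ℕ) => 2 * m + 1 = n ∧ m ∉ St X) (REIn.and ?_ ?_)
        · exact REIn.of_re (Pool.Agent.Helper446.RE.eq (by fun_prop) (by fun_prop))
        · exact hx.2.comp (f := fun x : ℕ × ℕ => x.2) (by fun_prop)
    refine h3.of_eq fun n => ?_
    constructor
    · rintro (⟨m, rfl, hm⟩ | ⟨m, rfl, hm⟩)
      · change ¬ XN (2 * m) = true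
        rw [h0]; exact hm
      · change ¬ XN (2 * m + 1) = true
        rw [h1]; exact hm
    · intro hn
      change ¬ XN n = true at hn
      rcases Nat.even_or_odd' n with ⟨m, rfl | rfl⟩
      · left; exact ⟨m, rfl, by rw [h0] at hn; exact hn⟩
      · right; exact ⟨m, rfl, by rw [h1] at hn; exact hn⟩

end Pool.Agent.H869R3.FN
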