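import Pool.Agent.H869R3.FN.Inf

/-!
Infinite subfamilies of a coding: the theorem.
-/

set_option autoImplicit false

namespace Pool.Agent.H869R3.FN

open Nat.Partrec (Code)
open Encodable
open Pool.Agent.H639.LU
open Pool.Agent.Helper446.Defs Pool.Agent.Helper446.Oracle

/-- the coded parameters -/
noncomputable def muN (z : ℕ → ℕ → Bool) : ℕ → Bool := fun p => z p.unpair.1 p.unpair.2

theorem le_muN (z : ℕ → ℕ → Bool) (n : ℕ) : le (z n) (muN z) :=
  K4.2.2.2 (muN z) (z n) (fun m => Nat.pair n m) (by fun_prop) (fun m => by simp [muN])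

theorem locN (r : Code) (z₀ : ℕ → Bool) (hr : ∀ X, le z₀ X → ¬ le (ch (W r X)) X)
    (S : ℕ → (ℕ → Bool) → ℕ → Bool) (hS : IsCoding S) (h1 : FinOne r) (k : ℕ) :
    LocN r S k := by
  classical
  obtain ⟨κ, hκ, hκ'⟩ := K7
  obtain ⟨a, b, hab⟩ := id hS
  obtain ⟨u2, hu2⟩ := exists_univ2
  have hA : ∀ d : Code, ∃ c' : Code, ∀ (n : ℕ) (X Y : ℕ → Bool), Red d X Y →
      Red c' (pf n X) (pf n Y) := fun d => exists_univ_pf (fun _ => d) (Computable.const d)
  choose A hA' using hA
  have hB : ∀ d : Code, ∃ (L : Finset Code) (z : ℕ → Bool), ∀ X Y : ℕ → Bool, le z X → le X Y →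
    Red (κ (κ (b, A d), u2)) X Y → ∃ l ∈ L, Red l (ch (W r X)) (ch (W r Y)) := fun d => h1 _
  choose L zL hL using hB
  have hC : ∀ d : Code, ∃ z₁ : ℕ → Bool, ∀ X, le z₁ X → ∀ V : ℕ → Bool, le X V → ∀ e : Code,
      (∀ i j : Code, {l : Code | W e V (encode (i, j, l))}.encard ≤ (k * (L d).card : ℕ)) →
      (∀ (i j : Code) (Y : ℕ → Bool), Red i X Y → Red j Y X →
        ∃ l : Code, W e V (encode (i, j, l)) ∧ Red l V (ch (W r Y))) →
      le (ch (J X)) V := fun d => main2_of allP K7 K9 r z₀ hr (k * (L d).card)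
  choose zC hC' using hC
  set zz : ℕ → ℕ → Bool := fun m => if m % 2 = 0 then zL (Denumerable.ofNat Code (m / 2)) else
    zC (Denumerable.ofNat Code (m / 2)) with hzz
  refine ⟨muN zz, fun X hX N hN hNX V hV e hcard hred => ?_⟩
  have hzL : ∀ d, le (zL d) X := by
    intro d
    have h := le_trans' (le_muN zz (2 * encode d)) hX
    have e1 : 2 * encode d % 2 = 0 := by omega
    have e2 : 2 * encode d / 2 = encode d := by omega
    simp only [hzz, e1, e2, if_true, Denumerable.ofNat_encode] at h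
    exact h
  have hzC : ∀ d, le (zC d) X := by
    intro d
    have h := le_trans' (le_muN zz (2 * encode d + 1)) hX
    have e1 : ¬ (2 * encode d + 1) % 2 = 0 := by omega
    have e2 : (2 * encode d + 1) / 2 = encode d := by omega
    simp only [hzz, e1, e2, if_false, Denumerable.ofNat_encode] at h
    exact h
  obtain ⟨XN, hXN0, hXN1⟩ := joinEven N X
  obtain ⟨d, hd⟩ := (le_iff X XN).1 (join_le hXN0 hXN1 hNX (le_refl' X))
  set p : ℕ → Prop := fun x => N x = true with hp
  have hNV : le N V := le_trans' hNX hV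
  have hcnt : REIn (St V) (fun q : ℕ => N q.unpair.1 = true ∧
      Nat.count (fun x => N x = true) q.unpair.1 = q.unpair.2) :=
    K4.1 N V hNV _ (cnt_re N)
  have hW : REIn (St V) (W e V) := K5_W K2 e V
  have hmemL : ∀ F : Finset Code, REIn (St V) (fun l : Code => l ∈ F) := by
    intro F
    induction F using Finset.induction_on with
    | empty =>
      refine (REIn.of_re (S := fun l : Code => encode l = encode l + 1)
        (Pool.Agent.Helper446.RE.eq (by fun_prop) (by fun_prop))).of_eq fun l => ?_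
      simp
    | insert x F _ ih =>
      refine (REIn.or (S := fun l : Code => l = x) (T := fun l : Code => l ∈ F)
        (REIn.of_re (Pool.Agent.Helper446.RE.eq (by fun_prop) (by fun_prop))) ih).of_eq
        fun l => ?_
      rw [Finset.mem_insert]
  have hS' : REIn (St V) (fun q : ℕ => ∃ w : (Code × Code × Code) × (ℕ × Code × Code),
      q = encode w.1 ∧ (N w.2.1 = true ∧ Nat.count (fun x => N x = true) w.2.1 =
        encode w.1.1) ∧ W e V (encode (w.2.1, w.2.2.1)) ∧ w.2.2.2 ∈ L d ∧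
        w.1.2.2 = κ (w.2.2.1, w.2.2.2)) := by
    refine REIn.ex (S := fun (q : ℕ) (w : (Code × Code × Code) × (ℕ × Code × Code)) =>
      q = encode w.1 ∧ (N w.2.1 = true ∧ Nat.count (fun x => N x = true) w.2.1 =
        encode w.1.1) ∧ W e V (encode (w.2.1, w.2.2.1)) ∧ w.2.2.2 ∈ L d ∧
        w.1.2.2 = κ (w.2.2.1, w.2.2.2)) ?_
    refine REIn.and ?_ (REIn.and ?_ (REIn.and ?_ (REIn.and ?_ ?_)))
    · exact REIn.of_re (Pool.Agent.Helper446.RE.eq (by fun_prop) (by fun_prop))
    · refine (REIn.comp (S := fun q : ℕ => N q.unpair.1 = true ∧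
          Nat.count (fun x => N x = true) q.unpair.1 = q.unpair.2)
        (f := fun x : ℕ × ((Code × Code × Code) × (ℕ × Code × Code)) =>
          Nat.pair x.2.2.1 (encode x.2.1.1)) hcnt (by fun_prop)).of_eq fun x => ?_
      rw [Nat.unpair_pair]
    · exact REIn.comp (S := W e V)
        (f := fun x : ℕ × ((Code × Code × Code) × (ℕ × Code × Code)) =>
          encode (x.2.2.1, x.2.2.2.1)) hW (by fun_prop)
    · exact REIn.comp (S := fun l : Code => l ∈ L d)
        (f := fun x : ℕ × ((Code × Code × Code) × (ℕ × Code × Code)) => x.2.2.2.2)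
        (hmemL (L d)) (by fun_prop)
    · have hk1 : Computable (fun x : ℕ × ((Code × Code × Code) × (ℕ × Code × Code)) =>
          κ (x.2.2.2.1, x.2.2.2.2)) := hκ.comp (by fun_prop)
      exact REIn.of_re (Pool.Agent.Helper446.RE.eq (by fun_prop) hk1)
  obtain ⟨e', he'⟩ := K10 V _ hS'
  have hmain : ∀ i j l : Code, W e' V (encode (i, j, l)) ↔ ∃ (n : ℕ) (l₁ l₀ : Code),
      (N n = true ∧ Nat.count (fun x => N x = true) n = encode i) ∧
      W e V (encode (n, l₁)) ∧ l₀ ∈ L d ∧ l = κ (l₁, l₀) := by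
    intro i j l
    rw [← he']
    constructor
    · rintro ⟨⟨⟨i', j', l'⟩, ⟨n, l₁, l₀⟩⟩, hq, hq1, hq2, hq3, hq4⟩
      have hq' := Encodable.encode_injective hq
      simp only [Prod.mk.injEq] at hq'
      obtain ⟨rfl, rfl, rfl⟩ := hq'
      exact ⟨n, l₁, l₀, hq1, hq2, hq3, hq4⟩
    · rintro ⟨n, l₁, l₀, hq1, hq2, hq3, hq4⟩
      exact ⟨⟨⟨i, j, l⟩, ⟨n, l₁, l₀⟩⟩, rfl, hq1, hq2, hq3, hq4⟩
  have hnth : ∀ m : ℕ, N (Nat.nth p m) = true ∧ Nat.count p (Nat.nth p m) = m := fun m =>
    ⟨Nat.nth_mem_of_infinite hN m, Nat.count_nth_of_infinite hN m⟩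
  refine hC' d X (hzC d) V hV e' (fun i j => ?_) (fun i j Y hXY hYX => ?_)
  · obtain ⟨hn1, hn2⟩ := hnth (encode i)
    set n := Nat.nth p (encode i) with hn
    have h4 := hcard n hn1
    have hfin : {l : Code | W e V (encode (n, l))}.Finite :=
      Set.finite_of_encard_le_coe h4
    rw [hfin.encard_eq_coe_toFinset_card] at h4
    have h4' : hfin.toFinset.card ≤ k := by exact_mod_cast h4
    have hsub : {l : Code | W e' V (encode (i, j, l))} ⊆
        (((hfin.toFinset ×ˢ L d).image (fun q : Code × Code => κ (q.1, q.2)) : Finset Code) :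
            Set Code) := by
      intro l hl
      obtain ⟨n', l₁, l₀, hq1, hq2, hq3, hq4⟩ := (hmain i j l).1 hl
      have hnn : n' = n := Nat.count_injective (p := p) hq1.1 hn1 (by rw [hn2]; exact hq1.2)
      rw [hnn] at hq2
      rw [Finset.mem_coe, Finset.mem_image]
      refine ⟨(l₁, l₀), ?_, hq4.symm⟩
      rw [Finset.mem_product]
      exact ⟨(Set.Finite.mem_toFinset hfin).2 hq2, hq3⟩
    refine (Set.encard_le_encard hsub).trans ?_
    rw [Set.encard_coe_eq_coe_finsetCard]
    have h5 : ((hfin.toFinset ×ˢ L d).image (fun q : Code × Code => κ (q.1, q.2))).card ≤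
          k * (L d).card := by
      refine Finset.card_image_le.trans ?_
      rw [Finset.card_product]
      exact Nat.mul_le_mul h4' (le_refl _)
    exact_mod_cast h5
  · obtain ⟨hn1, hn2⟩ := hnth (encode i)
    set n := Nat.nth p (encode i) with hn
    obtain ⟨l₁, hl₁, hl₁'⟩ := hred n hn1
    have hSX : le X (S n X) := le_S hS n X
    have h3 : Red (κ (κ (b, A d), u2)) (S n X) Y := by
      refine hκ' _ _ _ _ _ (hκ' _ _ _ _ _ (hab n X).2 (hA' d n X XN hd)) ?_
      refine hu2 n N X XN Y hXN0 hXN1 ?_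
      have e3 : Nat.count (fun x => N x = true) n = encode i := hn2
      rw [e3, Denumerable.ofNat_encode]
      exact hXY
    obtain ⟨l₀, hl₀, hl₀'⟩ := hL d (S n X) Y (le_trans' (hzL d) hSX)
      (le_trans' (S_le hS n X) ((le_iff Y X).2 ⟨j, hYX⟩)) h3
    exact ⟨κ (l₁, l₀), (hmain i j _).2 ⟨n, l₁, l₀, ⟨hn1, hn2⟩, hl₁, hl₀, rfl⟩,
      hκ' _ _ _ _ _ hl₁' hl₀'⟩

/-- the join of the sets `W r (S n X)`, `n ∈ N` -/
noncomputable def JnN (r : Code) (S : ℕ → (ℕ → Bool) → ℕ → Bool) (N X : ℕ → Bool) : ℕ → Bool :=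
  ch (fun p => N p.unpair.1 = true ∧ W r (S p.unpair.1 X) p.unpair.2)

theorem joinN_complete (r : Code) (z₀ : ℕ → Bool) (hr : ∀ X, le z₀ X → le X (ch (W r X)))
    (S : ℕ → (ℕ → Bool) → ℕ → Bool) (hS : IsCoding S) (h : LocN r S 1) :
    ∃ z₁ : ℕ → Bool, ∀ X : ℕ → Bool, le z₁ X → ∀ N : ℕ → Bool, {n | N n = true}.Infinite →
      le N X → le (ch (J X)) (JnN r S N X) := by
  obtain ⟨z₁, hz₁⟩ := h
  obtain ⟨y, hy0, hy1⟩ := join2 z₀ z₁
  obtain ⟨col, hcol, hcol'⟩ := exists_col
  refine ⟨y, fun X hX N hN hNX => ?_⟩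
  have hcolr : ∀ n, N n = true → Red (col n) (JnN r S N X) (ch (W r (S n X))) := by
    intro n hn
    have h1 := hcol' n (JnN r S N X)
    have h2 : (fun m => JnN r S N X (Nat.pair n m)) = ch (W r (S n X)) := by
      funext m
      unfold JnN ch
      apply decide_eq_decide.2
      change (N (Nat.unpair (Nat.pair n m)).1 = true ∧
        W r (S (Nat.unpair (Nat.pair n m)).1 X) (Nat.unpair (Nat.pair n m)).2) ↔ _
      rw [Nat.unpair_pair]
      exact ⟨fun h => h.2, fun h => ⟨hn, h⟩⟩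
    rw [h2] at h1
    exact h1
  have hXV : le X (JnN r S N X) := by
    obtain ⟨n, hn⟩ := hN.nonempty
    have h3 : le X (S n X) := le_S hS n X
    have h4 : le (S n X) (ch (W r (S n X))) := hr _ (le_trans' (le_trans' hy0 hX) h3)
    exact le_trans' (le_trans' h3 h4) ((le_iff _ _).2 ⟨_, hcolr n hn⟩)
  have hE : REIn (St (JnN r S N X)) (fun p : ℕ => ∃ n : ℕ, p = encode (n, col n)) := by
    refine REIn.ex (S := fun (p n : ℕ) => p = encode (n, col n)) ?_
    have h5 : Computable (fun x : ℕ × ℕ => col x.2) := hcol.comp (by fun_prop)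
    have h6 : Computable (fun x : ℕ × ℕ => encode (x.2, col x.2)) :=
      Computable.encode.comp (Computable.snd.pair h5)
    exact REIn.of_re (Pool.Agent.Helper446.RE.eq (by fun_prop) h6)
  obtain ⟨e, he⟩ := K10 (JnN r S N X) _ hE
  have he' : ∀ (n : ℕ) (l : Code), W e (JnN r S N X) (encode (n, l)) ↔ l = col n := by
    intro n l
    rw [← he]
    constructor
    · rintro ⟨n', hn'⟩
      have h7 := Encodable.encode_injective hn'
      simp only [Prod.mk.injEq] at h7
      obtain ⟨rfl, h8⟩ := h7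
      exact h8
    · rintro rfl
      exact ⟨n, rfl⟩
  refine hz₁ X (le_trans' hy1 hX) N hN hNX (JnN r S N X) hXV e (fun n _ => ?_)
    (fun n hn => ⟨col n, ?_, hcolr n hn⟩)
  · have h9 : {l : Code | W e (JnN r S N X) (encode (n, l))} = {col n} := by
      ext l
      exact he' n l
    rw [h9, Set.encard_singleton]
    simp
  · rw [he']

/-- for all but finitely many `n` more than `k` programs are needed -/
theorem finite_exceptions (r : Code) (z₀ : ℕ → Bool) (hr : Solves r z₀)
    (S : ℕ → (ℕ → Bool) → ℕ → Bool) (k : ℕ) (h : LocN r S k) :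
    {n : ℕ | ∃ M : Finset Code, M.card ≤ k ∧ ∃ z : ℕ → Bool, ∀ X : ℕ → Bool, le z X →
      ∃ l ∈ M, Red l (ch (W r X)) (ch (W r (S n X)))}.Finite := by
  classical
  by_contra hinf
  set B : Set ℕ := {n : ℕ | ∃ M : Finset Code, M.card ≤ k ∧ ∃ z : ℕ → Bool, ∀ X : ℕ → Bool,
    le z X → ∃ l ∈ M, Red l (ch (W r X)) (ch (W r (S n X)))} with hB
  obtain ⟨z₁, hz₁⟩ := h
  have hch : ∀ n : ℕ, ∃ (M : Finset Code) (z : ℕ → Bool), M.card ≤ k ∧ (n ∈ B →
      ∀ X : ℕ → Bool, le z X → ∃ l ∈ M, Red l (ch (W r X)) (ch (W r (S n X)))) := by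
    intro n
    by_cases hn : n ∈ B
    · obtain ⟨M, hM, z, hz⟩ := hn
      exact ⟨M, z, hM, fun _ => hz⟩
    · exact ⟨∅, fun _ => false, by simp, fun h => absurd h hn⟩
  choose M zM hMc hM using hch
  set N : ℕ → Bool := fun n => decide (n ∈ B) with hNdef
  have hN : {n | N n = true}.Infinite := by
    have e : {n | N n = true} = B := by
      ext n
      simp [hNdef]
    rw [e]
    exact hinf
  -- the parameters
  set par : ℕ → ℕ → Bool := fun m => if m = 0 then z₀ else if m = 1 then z₁ else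
    if m = 2 then N else if m = 3 then
      (fun q => decide (Denumerable.ofNat Code q.unpair.2 ∈ M q.unpair.1)) else zM (m - 4)
    with hpar
  set X := muN par with hX
  have h0 : le z₀ X := by have := le_muN par 0; simpa [hpar] using this
  have h1 : le z₁ X := by have := le_muN par 1; simpa [hpar] using this
  have h2 : le N X := by have := le_muN par 2; simpa [hpar] using this
  have h3 : le (fun q => decide (Denumerable.ofNat Code q.unpair.2 ∈ M q.unpair.1)) X := by
    have := le_muN par 3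
    simpa [hpar] using this
  have h4 : ∀ n, le (zM n) X := by
    intro n
    have h5 := le_muN par (n + 4)
    have e0 : ¬ (n + 4 = 0) := by omega
    have e1 : ¬ (n + 4 = 1) := by omega
    have e2 : ¬ (n + 4 = 2) := by omega
    have e3 : ¬ (n + 4 = 3) := by omega
    have e4 : n + 4 - 4 = n := by omega
    simp only [hpar, e0, e1, e2, e3, e4, if_false] at h5
    exact h5
  obtain ⟨-, hXV, hJ⟩ := hr X h0
  set V := ch (W r X) with hV
  have hE : REIn (St V) (fun p : ℕ => ∃ w : ℕ × Code, p = encode w ∧ w.2 ∈ M w.1) := by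
    refine REIn.ex (S := fun (p : ℕ) (w : ℕ × Code) => p = encode w ∧ w.2 ∈ M w.1) ?_
    refine REIn.and (REIn.of_re (Pool.Agent.Helper446.RE.eq (by fun_prop) (by fun_prop))) ?_
    have h6 := (turingReducible_iff.1 (le_trans' h3 hXV)).1
    refine (REIn.comp (f := fun x : ℕ × (ℕ × Code) => Nat.pair x.2.1 (encode x.2.2)) h6
      (by fun_prop)).of_eq fun x => ?_
    change decide (Denumerable.ofNat Code (Nat.unpair (Nat.pair x.2.1 (encode x.2.2))).2 ∈
      M (Nat.unpair (Nat.pair x.2.1 (encode x.2.2))).1) = true ↔ _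
    rw [Nat.unpair_pair, decide_eq_true_iff, Denumerable.ofNat_encode]
  obtain ⟨e, he⟩ := K10 V _ hE
  have he' : ∀ (n : ℕ) (l : Code), W e V (encode (n, l)) ↔ l ∈ M n := by
    intro n l
    rw [← he]
    constructor
    · rintro ⟨⟨n', l'⟩, hn', hl'⟩
      have h7 := Encodable.encode_injective hn'
      simp only [Prod.mk.injEq] at h7
      obtain ⟨rfl, rfl⟩ := h7
      exact hl'
    · intro hl
      exact ⟨(n, l), rfl, hl⟩
  refine hJ (hz₁ X h1 N hN h2 V hXV e (fun n _ => ?_) (fun n hn => ?_))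
  · have h9 : {l : Code | W e V (encode (n, l))} = (M n : Set Code) := by
      ext l
      exact he' n l
    rw [h9, Set.encard_coe_eq_coe_finsetCard]
    exact_mod_cast hMc n
  · have hnB : n ∈ B := by simpa [hNdef] using hn
    obtain ⟨l, hl, hl'⟩ := hM n hnB X (h4 n)
    exact ⟨l, (he' n l).2 hl, hl'⟩

end Pool.Agent.H869R3.FN
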