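import Pool.Agent.H869R3.FN.Prog
import Pool.Agent.H639.LU.Final2
import Pool.Agent.H639.LU.K9

/-!
The universal pair: finitely many candidates for one pair and boundedly many candidates for the
members of a coding give boundedly many candidates for all pairs.
-/

set_option autoImplicit false

namespace Pool.Agent.H869R3.FN

open Nat.Partrec (Code)
open Encodable
open Pool.Agent.H639.LU
open Pool.Agent.Helper446.Defs Pool.Agent.Helper446.Oracle

/-- `S n X` is, uniformly in `n`, equivalent to `0ⁿ 1 X`. -/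
def IsCoding (S : ℕ → (ℕ → Bool) → ℕ → Bool) : Prop :=
  ∃ a b : Code, ∀ (n : ℕ) (X : ℕ → Bool), Red a (pf n X) (S n X) ∧ Red b (S n X) (pf n X)

theorem le_iff (X Y : ℕ → Bool) : le Y X ↔ ∃ c : Code, Red c X Y := K3 K2 X Y

theorem le_trans' {X Y Z : ℕ → Bool} (h1 : le X Y) (h2 : le Y Z) : le X Z := K4.2.1 _ _ _ h1 h2

theorem le_refl' (X : ℕ → Bool) : le X X := K4.2.2.1 X

theorem le_pf (n : ℕ) (X : ℕ → Bool) : le X (pf n X) := by
  refine K4.2.2.2 (pf n X) X (fun m => n + 1 + m) (by fun_prop) (fun m => ?_)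
  unfold pf
  rw [if_neg (by omega), if_neg (by omega)]
  congr 1
  omega

theorem pf_le (n : ℕ) (X : ℕ → Bool) : le (pf n X) X := by
  have c1 : Computable (fun p : ℕ × Str => decide (p.1 < n)) :=
    (Primrec.nat_lt.decide.to_comp).comp Computable.fst (Computable.const n)
  have c2 : Computable (fun p : ℕ × Str => decide (p.1 = n)) :=
    (Primrec.eq.decide.to_comp).comp Computable.fst (Computable.const n)
  have c3 : Computable (fun p : ℕ × Str => ((p.2[p.1 - n - 1]?).map (fun b => b.toNat))) := by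
    refine Computable.option_map ?_ ?_
    · fun_prop
    · exact ((Primrec.dom_finite (fun b : Bool => b.toNat)).to_comp.comp Computable.snd).to₂
  have hf : Computable (fun p : ℕ × Str =>
      (bif decide (p.1 < n) then some 0 else bif decide (p.1 = n) then some 1 else
        ((p.2[p.1 - n - 1]?).map (fun b => b.toNat)) : Option ℕ)) :=
    Computable.cond c1 (Computable.const _) (Computable.cond c2 (Computable.const _) c3)
  obtain ⟨c, hc⟩ := K1 _ hf
  rw [le_iff]
  refine ⟨c, fun m v => ?_⟩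
  by_cases h1 : m < n
  · have e : (pf n X m).toNat = 0 := by unfold pf; rw [if_pos h1]; rfl
    rw [e]
    constructor
    · rintro ⟨s, hs⟩
      rw [hc] at hs
      simp only [h1, decide_true, cond_true] at hs
      exact Part.mem_some_iff.1 hs
    · rintro rfl
      refine ⟨0, ?_⟩
      rw [hc]
      simp only [h1, decide_true, cond_true]
      exact Part.mem_some _
  · by_cases h2 : m = n
    · have e : (pf n X m).toNat = 1 := by unfold pf; rw [if_neg h1, if_pos h2]; rfl
      rw [e]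
      constructor
      · rintro ⟨s, hs⟩
        rw [hc] at hs
        simp only [h2, lt_irrefl, decide_false, cond_false, decide_true, cond_true] at hs
        exact Part.mem_some_iff.1 hs
      · rintro rfl
        refine ⟨0, ?_⟩
        rw [hc]
        simp only [h2, lt_irrefl, decide_false, cond_false, decide_true, cond_true]
        exact Part.mem_some _
    · have e : pf n X m = X (m - n - 1) := by unfold pf; rw [if_neg h1, if_neg h2]
      rw [e]
      constructor
      · rintro ⟨s, hs⟩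
        rw [hc] at hs
        simp only [h1, h2, decide_false, cond_false] at hs
        rw [seg_get] at hs
        by_cases g : m - n - 1 < s
        · rw [if_pos g] at hs
          exact Part.mem_some_iff.1 hs
        · rw [if_neg g] at hs
          exact absurd hs (Part.notMem_none v)
      · rintro rfl
        refine ⟨m - n - 1 + 1, ?_⟩
        rw [hc]
        simp only [h1, h2, decide_false, cond_false]
        rw [seg_get, if_pos (by omega)]
        exact Part.mem_some _

theorem le_S {S : ℕ → (ℕ → Bool) → ℕ → Bool} (hS : IsCoding S) (n : ℕ) (X : ℕ → Bool) :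
    le X (S n X) := by
  obtain ⟨a, b, hab⟩ := hS
  exact le_trans' (le_pf n X) ((le_iff _ _).2 ⟨b, (hab n X).2⟩)

theorem S_le {S : ℕ → (ℕ → Bool) → ℕ → Bool} (hS : IsCoding S) (n : ℕ) (X : ℕ → Bool) :
    le (S n X) X := by
  obtain ⟨a, b, hab⟩ := hS
  exact le_trans' ((le_iff _ _).2 ⟨a, (hab n X).1⟩) (pf_le n X)

/-- each pair of programs has finitely many candidates on a cone -/
def FinTwo (r : Code) : Prop :=
  ∀ i j : Code, ∃ (L : Finset Code) (z : ℕ → Bool), ∀ X Y : ℕ → Bool, le z X →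
    Red i X Y → Red j Y X → ∃ l ∈ L, Red l (ch (W r X)) (ch (W r Y))

/-- boundedly many candidates for the reduction of `W r X` to `W r (S n X)`, on a cone -/
def BddOff (r : Code) (S : ℕ → (ℕ → Bool) → ℕ → Bool) (k₀ : ℕ) : Prop :=
  ∀ n : ℕ, ∃ M : Finset Code, M.card ≤ k₀ ∧ ∃ z : ℕ → Bool, ∀ X : ℕ → Bool, le z X →
    ∃ l ∈ M, Red l (ch (W r (S n X))) (ch (W r X))

/-- `V` does not enumerate at most `k` candidates for the reductions of `W r (S n X)`, `n ∈ ℕ`,
unless it computes the jump of `X`; for all `X` in a cone. -/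
def Loc (r : Code) (S : ℕ → (ℕ → Bool) → ℕ → Bool) (k : ℕ) : Prop :=
  ∃ z₁ : ℕ → Bool, ∀ X : ℕ → Bool, le z₁ X → ∀ V : ℕ → Bool, le X V → ∀ e : Code,
    (∀ n : ℕ, {l : Code | W e V (encode (n, l))}.encard ≤ k) →
    (∀ n : ℕ, ∃ l : Code, W e V (encode (n, l)) ∧ Red l V (ch (W r (S n X)))) →
    le (ch (J X)) V

theorem univ_pair {S : ℕ → (ℕ → Bool) → ℕ → Bool} (hS : IsCoding S) :
    ∃ I J : Code, ∀ (i j : Code) (X Y : ℕ → Bool),
      (Red i X Y → Red I (S (Nat.pair (encode i) (encode j)) X)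
        (S (Nat.pair (encode i) (encode j)) Y)) ∧
      (Red j Y X → Red J (S (Nat.pair (encode i) (encode j)) Y)
        (S (Nat.pair (encode i) (encode j)) X)) := by
  obtain ⟨κ, -, hκ'⟩ := K7
  obtain ⟨a, b, hab⟩ := hS
  have c1 : Computable (fun n : ℕ => Denumerable.ofNat Code n.unpair.1) :=
    (Computable.ofNat Code).comp (Computable.fst.comp Computable.unpair)
  have c2 : Computable (fun n : ℕ => Denumerable.ofNat Code n.unpair.2) :=
    (Computable.ofNat Code).comp (Computable.snd.comp Computable.unpair)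
  obtain ⟨i1, hi1⟩ := exists_univ_pf _ c1
  obtain ⟨j1, hj1⟩ := exists_univ_pf _ c2
  refine ⟨κ (κ (b, i1), a), κ (κ (b, j1), a), fun i j X Y => ⟨fun h => ?_, fun h => ?_⟩⟩
  · refine hκ' _ _ _ _ _ (hκ' _ _ _ _ _ (hab _ X).2 (hi1 _ X Y ?_)) (hab _ Y).1
    rw [Nat.unpair_pair, Denumerable.ofNat_encode]
    exact h
  · refine hκ' _ _ _ _ _ (hκ' _ _ _ _ _ (hab _ Y).2 (hj1 _ Y X ?_)) (hab _ X).1
    rw [Nat.unpair_pair, Denumerable.ofNat_encode]
    exact h

theorem local_thm (r : Code) (z₀ : ℕ → Bool) (hr : ∀ X, le z₀ X → ¬ le (ch (W r X)) X)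
    (S : ℕ → (ℕ → Bool) → ℕ → Bool) (hS : IsCoding S) (h1 : FinTwo r) (k₀ : ℕ)
    (h2 : BddOff r S k₀) (k : ℕ) : Loc r S k := by
  classical
  obtain ⟨κ, hκ, hκ'⟩ := K7
  obtain ⟨I, J', hIJ⟩ := univ_pair hS
  obtain ⟨Ls, zs, hLs⟩ := h1 I J'
  choose M hMc zM hM using h2
  obtain ⟨z₁, hz₁⟩ := main2_of allP K7 K9 r z₀ hr (k * (Ls.card * k₀))
  obtain ⟨zj, hzj0, hzj1⟩ := joinEven z₁ zs
  set LL : List ℕ → Finset Code := fun ee => if ee = [] then Ls else M ee.head! with hLL
  set zz : List ℕ → ℕ → Bool := fun ee => zM ee.head! with hzz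
  refine ⟨mu LL zz zj, fun X hX V hV e hcard hred => ?_⟩
  have hzjX : le zj X := le_trans' (K4.2.2.2 (mu LL zz zj) zj
    (fun n => encode ((2, [], Code.zero, n) : ℕ × List ℕ × Code × ℕ)) (by fun_prop)
    (fun n => by rw [mu_z₀])) hX
  have hz1X : le z₁ X := le_trans' (K4.2.2.2 zj z₁ (fun n => 2 * n) (by fun_prop)
    (fun n => by rw [hzj0])) hzjX
  have hzsX : le zs X := le_trans' (K4.2.2.2 zj zs (fun n => 2 * n + 1) (by fun_prop)
    (fun n => by rw [hzj1])) hzjX
  have hzMX : ∀ n, le (zM n) X := fun n => le_trans' (K4.2.2.2 (mu LL zz zj) (zM n)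
    (fun m => encode ((1, [n], Code.zero, m) : ℕ × List ℕ × Code × ℕ)) (by fun_prop)
    (fun m => by rw [mu_z]; rfl)) hX
  -- the new enumeration
  have htV : REIn (St V) (fun n => n ∈ St (mu LL zz zj)) :=
    (turingReducible_iff.1 (le_trans' hX hV)).1
  have hmem : REIn (St V) (fun p : List ℕ × Code => p.2 ∈ LL p.1) := by
    have h3 : REIn (St V) (fun p : List ℕ × Code =>
        encode ((0, p.1, p.2, 0) : ℕ × List ℕ × Code × ℕ) ∈ St (mu LL zz zj)) :=
      REIn.comp (S := fun n => n ∈ St (mu LL zz zj)) htV (by fun_prop)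
    refine h3.of_eq fun p => ?_
    change mu LL zz zj _ = true ↔ _
    rw [mu_L]
  have hW : REIn (St V) (W e V) := K5_W K2 e V
  have hS' : REIn (St V) (fun p : ℕ => ∃ q : (Code × Code × Code) × (Code × Code × Code),
      p = encode q.1 ∧ W e V (encode (Nat.pair (encode q.1.1) (encode q.1.2.1), q.2.1)) ∧
      q.2.2.1 ∈ LL [] ∧ q.2.2.2 ∈ LL [Nat.pair (encode q.1.1) (encode q.1.2.1)] ∧
      q.1.2.2 = κ (κ (q.2.1, q.2.2.1), q.2.2.2)) := by
    refine REIn.ex (S := fun (p : ℕ) (q : (Code × Code × Code) × (Code × Code × Code)) =>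
      p = encode q.1 ∧ W e V (encode (Nat.pair (encode q.1.1) (encode q.1.2.1), q.2.1)) ∧
      q.2.2.1 ∈ LL [] ∧ q.2.2.2 ∈ LL [Nat.pair (encode q.1.1) (encode q.1.2.1)] ∧
      q.1.2.2 = κ (κ (q.2.1, q.2.2.1), q.2.2.2)) ?_
    refine REIn.and ?_ (REIn.and ?_ (REIn.and ?_ (REIn.and ?_ ?_)))
    · exact REIn.of_re (Pool.Agent.Helper446.RE.eq (by fun_prop) (by fun_prop))
    · exact REIn.comp (S := W e V)
        (f := fun x : ℕ × ((Code × Code × Code) × (Code × Code × Code)) =>
          encode (Nat.pair (encode x.2.1.1) (encode x.2.1.2.1), x.2.2.1)) hW (by fun_prop)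
    · exact REIn.comp (S := fun p : List ℕ × Code => p.2 ∈ LL p.1)
        (f := fun x : ℕ × ((Code × Code × Code) × (Code × Code × Code)) =>
          (([] : List ℕ), x.2.2.2.1)) hmem (by fun_prop)
    · exact REIn.comp (S := fun p : List ℕ × Code => p.2 ∈ LL p.1)
        (f := fun x : ℕ × ((Code × Code × Code) × (Code × Code × Code)) =>
          ([Nat.pair (encode x.2.1.1) (encode x.2.1.2.1)], x.2.2.2.2)) hmem (by fun_prop)
    · have hk1 : Computable (fun x : ℕ × ((Code × Code × Code) × (Code × Code × Code)) =>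
          κ (x.2.2.1, x.2.2.2.1)) := hκ.comp (by fun_prop)
      have hk2 : Computable (fun x : ℕ × ((Code × Code × Code) × (Code × Code × Code)) =>
          κ (κ (x.2.2.1, x.2.2.2.1), x.2.2.2.2)) := hκ.comp (hk1.pair (by fun_prop))
      exact REIn.of_re (Pool.Agent.Helper446.RE.eq (by fun_prop) hk2)
  obtain ⟨e', he'⟩ := K10 V _ hS'
  have hmain : ∀ i j l : Code, W e' V (encode (i, j, l)) ↔ ∃ l₁ l₀ l₂ : Code,
      W e V (encode (Nat.pair (encode i) (encode j), l₁)) ∧ l₀ ∈ Ls ∧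
      l₂ ∈ M (Nat.pair (encode i) (encode j)) ∧ l = κ (κ (l₁, l₀), l₂) := by
    intro i j l
    rw [← he']
    constructor
    · rintro ⟨⟨⟨i', j', l'⟩, ⟨l₁, l₀, l₂⟩⟩, hq, hq1, hq2, hq3, hq4⟩
      have hq' := Encodable.encode_injective hq
      simp only [Prod.mk.injEq] at hq'
      obtain ⟨rfl, rfl, rfl⟩ := hq'
      exact ⟨l₁, l₀, l₂, hq1, by simpa [hLL] using hq2, by simpa [hLL] using hq3, hq4⟩
    · rintro ⟨l₁, l₀, l₂, hq1, hq2, hq3, hq4⟩
      exact ⟨⟨⟨i, j, l⟩, ⟨l₁, l₀, l₂⟩⟩, rfl, hq1, by simpa [hLL] using hq2,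
        by simpa [hLL] using hq3, hq4⟩
  refine hz₁ X hz1X V hV e' (fun i j => ?_) (fun i j Y hXY hYX => ?_)
  · have h4 := hcard (Nat.pair (encode i) (encode j))
    have hfin : {l : Code | W e V (encode (Nat.pair (encode i) (encode j), l))}.Finite :=
      Set.finite_of_encard_le_coe h4
    rw [hfin.encard_eq_coe_toFinset_card] at h4
    have h4' : hfin.toFinset.card ≤ k := by exact_mod_cast h4
    have hsub : {l : Code | W e' V (encode (i, j, l))} ⊆
        (((hfin.toFinset ×ˢ (Ls ×ˢ M (Nat.pair (encode i) (encode j)))).image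
          (fun p : Code × Code × Code => κ (κ (p.1, p.2.1), p.2.2)) : Finset Code) :
            Set Code) := by
      intro l hl
      obtain ⟨l₁, l₀, l₂, hq1, hq2, hq3, hq4⟩ := (hmain i j l).1 hl
      rw [Finset.mem_coe, Finset.mem_image]
      refine ⟨(l₁, l₀, l₂), ?_, hq4.symm⟩
      rw [Finset.mem_product, Finset.mem_product]
      exact ⟨(Set.Finite.mem_toFinset hfin).2 hq1, hq2, hq3⟩
    refine (Set.encard_le_encard hsub).trans ?_
    rw [Set.encard_coe_eq_coe_finsetCard]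
    have h5 : ((hfin.toFinset ×ˢ (Ls ×ˢ M (Nat.pair (encode i) (encode j)))).image
          (fun p : Code × Code × Code => κ (κ (p.1, p.2.1), p.2.2))).card ≤
          k * (Ls.card * k₀) := by
      refine Finset.card_image_le.trans ?_
      rw [Finset.card_product, Finset.card_product]
      exact Nat.mul_le_mul h4' (Nat.mul_le_mul (le_refl _) (hMc _))
    exact_mod_cast h5
  · set n := Nat.pair (encode i) (encode j) with hn
    obtain ⟨l₁, hl₁, hl₁'⟩ := hred n
    have hzS : le zs (S n X) := le_trans' hzsX (le_S hS n X)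
    obtain ⟨l₀, hl₀, hl₀'⟩ := hLs (S n X) (S n Y) hzS ((hIJ i j X Y).1 hXY) ((hIJ i j X Y).2 hYX)
    have hzMY : le (zM n) Y := le_trans' (hzMX n) ((le_iff Y X).2 ⟨j, hYX⟩)
    obtain ⟨l₂, hl₂, hl₂'⟩ := hM n Y hzMY
    refine ⟨κ (κ (l₁, l₀), l₂), (hmain i j _).2 ⟨l₁, l₀, l₂, hl₁, hl₀, hl₂, rfl⟩, ?_⟩
    exact hκ' _ _ _ _ _ (hκ' _ _ _ _ _ hl₁' hl₀') hl₂'

end Pool.Agent.H869R3.FN
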