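import Pool.Agent.H869R3.FN.Local

/-!
The dichotomies for solutions to Post's problem.
-/

set_option autoImplicit false

namespace Pool.Agent.H869R3.FN

open Nat.Partrec (Code)
open Encodable
open Pool.Agent.H639.LU
open Pool.Agent.Helper446.Defs Pool.Agent.Helper446.Oracle

/-- `r` solves Post's problem on the cone above `z₀` -/
def Solves (r : Code) (z₀ : ℕ → Bool) : Prop :=
  ∀ X, le z₀ X → ¬ le (ch (W r X)) X ∧ le X (ch (W r X)) ∧ ¬ le (ch (J X)) (ch (W r X))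

/-- each program has finitely many candidates on a cone -/
def FinOne (r : Code) : Prop :=
  ∀ i : Code, ∃ (L : Finset Code) (z : ℕ → Bool), ∀ X Y : ℕ → Bool, le z X → le X Y →
    Red i X Y → ∃ l ∈ L, Red l (ch (W r X)) (ch (W r Y))

/-- boundedly many candidates for the reduction of `W r (S n X)` to `W r X`, on a cone -/
def BddOn (r : Code) (S : ℕ → (ℕ → Bool) → ℕ → Bool) (k : ℕ) : Prop :=
  ∀ n : ℕ, ∃ M : Finset Code, M.card ≤ k ∧ ∃ z : ℕ → Bool, ∀ X : ℕ → Bool, le z X →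
    ∃ l ∈ M, Red l (ch (W r X)) (ch (W r (S n X)))

theorem join2 (z w : ℕ → Bool) : ∃ y : ℕ → Bool, le z y ∧ le w y := by
  obtain ⟨y, h0, h1⟩ := joinEven z w
  exact ⟨y, K4.2.2.2 y z (fun n => 2 * n) (by fun_prop) (fun n => by rw [h0]),
    K4.2.2.2 y w (fun n => 2 * n + 1) (by fun_prop) (fun n => by rw [h1])⟩

/-- the two-sided version -/
theorem two_sided (r : Code) (z₀ : ℕ → Bool) (hr : Solves r z₀)
    (S : ℕ → (ℕ → Bool) → ℕ → Bool) (hS : IsCoding S) (h1 : FinTwo r) (k₀ k : ℕ)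
    (h2 : BddOff r S k₀) : ¬ BddOn r S k := by
  classical
  intro h3
  obtain ⟨κ, -, hκ'⟩ := K7
  obtain ⟨I, J', hIJ⟩ := univ_pair hS
  obtain ⟨Ls, zs, hLs⟩ := h1 I J'
  choose M hMc zM hM using h2
  choose N hNc zN hN using h3
  obtain ⟨i, j, hij⟩ := main r z₀ hr (k * (Ls.card * k₀))
  set n := Nat.pair (encode i) (encode j) with hn
  obtain ⟨y₁, ha, hb⟩ := join2 zs (zM n)
  obtain ⟨y, hc, hd⟩ := join2 y₁ (zN n)
  obtain ⟨X, Y, hyX, hXY, hYX, hno⟩ := hij ((N n ×ˢ (Ls ×ˢ M n)).image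
    (fun p : Code × Code × Code => κ (κ (p.1, p.2.1), p.2.2))) (by
      refine Finset.card_image_le.trans ?_
      rw [Finset.card_product, Finset.card_product]
      exact Nat.mul_le_mul (hNc _) (Nat.mul_le_mul (le_refl _) (hMc _))) y
  have h4 : le y₁ X := le_trans' hc hyX
  obtain ⟨l₁, hl₁, hl₁'⟩ := hN n X (le_trans' hd hyX)
  obtain ⟨l₀, hl₀, hl₀'⟩ := hLs (S n X) (S n Y) (le_trans' (le_trans' ha h4) (le_S hS n X))
    ((hIJ i j X Y).1 hXY) ((hIJ i j X Y).2 hYX)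
  obtain ⟨l₂, hl₂, hl₂'⟩ := hM n Y (le_trans' (le_trans' hb h4) ((le_iff Y X).2 ⟨j, hYX⟩))
  refine hno (κ (κ (l₁, l₀), l₂)) ?_ (hκ' _ _ _ _ _ (hκ' _ _ _ _ _ hl₁' hl₀') hl₂')
  rw [Finset.mem_image]
  refine ⟨(l₁, l₀, l₂), ?_, rfl⟩
  rw [Finset.mem_product, Finset.mem_product]
  exact ⟨hl₁, hl₀, hl₂⟩

theorem finTwo_of_one {r : Code} (h : FinOne r) : FinTwo r := by
  intro i j
  obtain ⟨L, z, hL⟩ := h i
  exact ⟨L, z, fun X Y hX hXY hYX => hL X Y hX ((le_iff Y X).2 ⟨j, hYX⟩) hXY⟩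

/-- the identity program -/
theorem exists_id : ∃ d : Code, ∀ X : ℕ → Bool, Red d X X := by
  have hf : Computable (fun p : ℕ × Str => ((p.2[p.1]?).map (fun b => b.toNat))) := by
    refine Computable.option_map ?_ ?_
    · fun_prop
    · exact ((Primrec.dom_finite (fun b : Bool => b.toNat)).to_comp.comp
        Computable.snd).to₂
  obtain ⟨d, hd⟩ := K1 _ hf
  refine ⟨d, fun X m v => ?_⟩
  constructor
  · rintro ⟨s, hs⟩
    rw [hd] at hs
    simp only [seg_get] at hs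
    by_cases g : m < s
    · rw [if_pos g] at hs
      exact Part.mem_some_iff.1 hs
    · rw [if_neg g] at hs
      exact absurd hs (Part.notMem_none v)
  · rintro rfl
    refine ⟨m + 1, ?_⟩
    rw [hd]
    simp only [seg_get]
    rw [if_pos (by omega)]
    exact Part.mem_some _

theorem bddOff_of_one {r : Code} (h : FinOne r) {S : ℕ → (ℕ → Bool) → ℕ → Bool}
    (hS : IsCoding S) : ∃ k₀, BddOff r S k₀ := by
  obtain ⟨κ, -, hκ'⟩ := K7
  obtain ⟨a, b, hab⟩ := id hS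
  obtain ⟨d, hd⟩ := exists_id
  obtain ⟨u, hu⟩ := exists_univ (fun _ => d) (Computable.const d)
  obtain ⟨L, z, hL⟩ := h (κ (b, u))
  refine ⟨L.card, fun n => ⟨L, le_refl _, z, fun X hX => ?_⟩⟩
  exact hL (S n X) X (le_trans' hX (le_S hS n X)) (S_le hS n X)
    (hκ' _ _ _ _ _ (hab n X).2 (hu n X X (hd X)))

/-- the join of the sets `W r (S n X)` -/
noncomputable def Jn (r : Code) (S : ℕ → (ℕ → Bool) → ℕ → Bool) (X : ℕ → Bool) : ℕ → Bool :=
  ch (fun p => W r (S p.unpair.1 X) p.unpair.2)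

theorem join_complete (r : Code) (z₀ : ℕ → Bool) (hr : ∀ X, le z₀ X → le X (ch (W r X)))
    (S : ℕ → (ℕ → Bool) → ℕ → Bool) (hS : IsCoding S) (h : Loc r S 1) :
    ∃ z₁ : ℕ → Bool, ∀ X : ℕ → Bool, le z₁ X → le (ch (J X)) (Jn r S X) := by
  obtain ⟨z₁, hz₁⟩ := h
  obtain ⟨y, hy0, hy1⟩ := join2 z₀ z₁
  obtain ⟨col, hcol, hcol'⟩ := exists_col
  refine ⟨y, fun X hX => ?_⟩
  have hcolr : ∀ n, Red (col n) (Jn r S X) (ch (W r (S n X))) := by
    intro n
    have h1 := hcol' n (Jn r S X)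
    have h2 : (fun m => Jn r S X (Nat.pair n m)) = ch (W r (S n X)) := by
      funext m
      unfold Jn ch
      apply decide_eq_decide.2
      change W r (S (Nat.unpair (Nat.pair n m)).1 X) (Nat.unpair (Nat.pair n m)).2 ↔ _
      rw [Nat.unpair_pair]
    rw [h2] at h1
    exact h1
  have hXV : le X (Jn r S X) := by
    have h3 : le X (S 0 X) := le_S hS 0 X
    have h4 : le (S 0 X) (ch (W r (S 0 X))) := hr _ (le_trans' (le_trans' hy0 hX) h3)
    exact le_trans' (le_trans' h3 h4) ((le_iff _ _).2 ⟨_, hcolr 0⟩)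
  have hE : REIn (St (Jn r S X)) (fun p : ℕ => ∃ n : ℕ, p = encode (n, col n)) := by
    refine REIn.ex (S := fun (p n : ℕ) => p = encode (n, col n)) ?_
    have h5 : Computable (fun x : ℕ × ℕ => col x.2) := hcol.comp (by fun_prop)
    have h6 : Computable (fun x : ℕ × ℕ => encode (x.2, col x.2)) :=
      Computable.encode.comp (Computable.snd.pair h5)
    exact REIn.of_re (Pool.Agent.Helper446.RE.eq (by fun_prop) h6)
  obtain ⟨e, he⟩ := K10 (Jn r S X) _ hE
  have he' : ∀ (n : ℕ) (l : Code), W e (Jn r S X) (encode (n, l)) ↔ l = col n := by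
    intro n l
    rw [← he]
    constructor
    · rintro ⟨n', hn'⟩
      have h7 := Encodable.encode_injective hn'
      simp only [Prod.mk.injEq] at h7
      obtain ⟨rfl, h8⟩ := h7
      exact h8
    · rintro rfl
      exact ⟨n, rfl⟩
  refine hz₁ X (le_trans' hy1 hX) (Jn r S X) hXV e (fun n => ?_) (fun n => ⟨col n, ?_, hcolr n⟩)
  · have h9 : {l : Code | W e (Jn r S X) (encode (n, l))} = {col n} := by
      ext l
      exact he' n l
    rw [h9, Set.encard_singleton]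
    simp
  · rw [he']

theorem isCoding_pf : IsCoding pf := by
  obtain ⟨d, hd⟩ := exists_id
  exact ⟨d, d, fun n X => ⟨hd _, hd _⟩⟩

/-- the one-sided version -/
theorem one_sided (r : Code) (z₀ : ℕ → Bool) (hr : Solves r z₀) (h1 : FinOne r)
    (S : ℕ → (ℕ → Bool) → ℕ → Bool) (hS : IsCoding S) :
    (∀ k, Loc r S k) ∧
    (∃ z₁ : ℕ → Bool, ∀ X : ℕ → Bool, le z₁ X → le (ch (J X)) (Jn r S X)) ∧
    ∀ k, ¬ BddOn r S k := by
  obtain ⟨k₀, hk₀⟩ := bddOff_of_one h1 hS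
  have h2 : ∀ k, Loc r S k := fun k =>
    local_thm r z₀ (fun X hX => (hr X hX).1) S hS (finTwo_of_one h1) k₀ hk₀ k
  exact ⟨h2, join_complete r z₀ (fun X hX => (hr X hX).2.1) S hS (h2 1), fun k =>
    two_sided r z₀ hr S hS (finTwo_of_one h1) k₀ k hk₀⟩

end Pool.Agent.H869R3.FN
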