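import Pool.Agent.H639.LU.Final3
import Pool.Agent.H639.LU.K7

/-!
Programs acting on oracles of the form `0ⁿ 1 X`, where `n` codes another program.
-/

set_option autoImplicit false

namespace Pool.Agent.H869R3.FN

open Nat.Partrec (Code)
open Encodable
open Pool.Agent.H639.LU
open Pool.Agent.Helper446.Defs Pool.Agent.Helper446.Oracle

/-- The oracle `0ⁿ 1 X`. -/
def pf (n : ℕ) (X : ℕ → Bool) : ℕ → Bool :=
  fun m => if m < n then false else if m = n then true else X (m - n - 1)

/-- the position of the first one -/
def fst1 (τ : Str) : ℕ := τ.findIdx (fun b => b)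

theorem fst1_prim : Primrec fst1 :=
  Primrec.list_findIdx (p := fun (_ : Str) (b : Bool) => b) Primrec.id Primrec.snd

theorem seg_len (X : ℕ → Bool) (t : ℕ) : (seg X t).length = t := by simp [seg]

theorem seg_get (X : ℕ → Bool) (t x : ℕ) :
    (seg X t)[x]? = if x < t then some (X x) else none := K2_seg_get X t x

theorem fst1_short (n : ℕ) (X : ℕ → Bool) {s : ℕ} (h : s ≤ n) :
    ¬ fst1 (seg (pf n X) s) < (seg (pf n X) s).length := by
  unfold fst1
  rw [List.findIdx_lt_length]
  rintro ⟨b, hb, h1⟩
  unfold seg at hb
  rw [List.mem_map] at hb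
  obtain ⟨m, hm, rfl⟩ := hb
  have h2 := List.mem_range.1 hm
  have h3 : pf n X m = false := by
    unfold pf
    rw [if_pos (by omega)]
  rw [h3] at h1
  exact absurd h1 (by decide)

theorem fst1_long (n : ℕ) (X : ℕ → Bool) {s : ℕ} (h : n < s) :
    fst1 (seg (pf n X) s) = n := by
  unfold fst1
  rw [List.findIdx_eq (by rw [seg_len]; exact h)]
  constructor
  · simp [seg, pf]
  · intro j hj
    simp only [seg, List.getElem_map, List.getElem_range]
    unfold pf
    rw [if_pos hj]

theorem drop_long (n : ℕ) (X : ℕ → Bool) {s : ℕ} (h : n < s) :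
    (seg (pf n X) s).drop (n + 1) = seg X (s - n - 1) := by
  apply List.ext_getElem?
  intro i
  rw [List.getElem?_drop, seg_get, seg_get]
  by_cases hi : i < s - n - 1
  · rw [if_pos hi, if_pos (by omega)]
    congr 1
    unfold pf
    rw [if_neg (by omega), if_neg (by omega)]
    congr 1
    omega
  · rw [if_neg hi, if_neg (by omega)]

theorem code_of {f : ℕ × Str →. ℕ} (hf : Partrec f) :
    ∃ c : Code, ∀ p : ℕ × Str, c.eval (encode p) = f p := by
  have hq : Partrec (fun p : ℕ => (Part.ofOption (decode (α := ℕ × Str) p)).bind f) :=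
    Partrec.bind (Computable.ofOption Computable.decode) (hf.comp Computable.snd).to₂
  obtain ⟨c, hc⟩ := Nat.Partrec.Code.exists_code.1 (Partrec.nat_iff.1 hq)
  refine ⟨c, fun p => ?_⟩
  rw [hc]
  change (Part.ofOption (decode (α := ℕ × Str) (encode p))).bind f = _
  rw [encodek]
  exact Part.bind_some _ _

/-- the programs which first read `n` -/
def prog (h : ℕ → Code) (sh : Bool) (p : ℕ × Str) : Part ℕ :=
  if fst1 p.2 < p.2.length then
    (if sh = true ∧ p.1 < fst1 p.2 then Part.some 0
     else if sh = true ∧ p.1 = fst1 p.2 then Part.some 1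
     else (h (fst1 p.2)).eval (encode ((if sh = true then p.1 - fst1 p.2 - 1 else p.1),
        p.2.drop (fst1 p.2 + 1))))
  else Part.none

theorem prog_partrec (h : ℕ → Code) (hh : Computable h) (sh : Bool) : Partrec (prog h sh) := by
  have c1 : Computable (fun p : ℕ × Str => fst1 p.2) := fst1_prim.to_comp.comp Computable.snd
  have c2 : Computable (fun p : ℕ × Str => p.2.length) :=
    Computable.list_length.comp Computable.snd
  have c3 : Computable (fun p : ℕ × Str => decide (fst1 p.2 < p.2.length)) :=
    (Primrec.nat_lt.decide.to_comp).comp c1 c2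
  have c4 : Computable (fun p : ℕ × Str => decide (p.1 < fst1 p.2)) :=
    (Primrec.nat_lt.decide.to_comp).comp Computable.fst c1
  have c5 : Computable (fun p : ℕ × Str => decide (p.1 = fst1 p.2)) :=
    (Primrec.eq.decide.to_comp).comp Computable.fst c1
  have c6 : Computable (fun p : ℕ × Str => sh && decide (p.1 < fst1 p.2)) := by fun_prop
  have c7 : Computable (fun p : ℕ × Str => sh && decide (p.1 = fst1 p.2)) := by fun_prop
  have c8 : Computable (fun p : ℕ × Str => p.2.drop (fst1 p.2 + 1)) :=
    Primrec.list_drop.to_comp.comp (Computable.succ.comp c1) Computable.snd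
  have c9 : Computable (fun p : ℕ × Str =>
      encode ((bif sh then p.1 - fst1 p.2 - 1 else p.1), p.2.drop (fst1 p.2 + 1))) := by
    fun_prop
  have c10 : Partrec (fun p : ℕ × Str => (h (fst1 p.2)).eval
      (encode ((bif sh then p.1 - fst1 p.2 - 1 else p.1), p.2.drop (fst1 p.2 + 1)))) :=
    Nat.Partrec.Code.eval_part.comp (hh.comp c1) c9
  have c11 : Partrec (fun _ : ℕ × Str => (Part.none : Part ℕ)) := Partrec.none
  have c12 : Partrec (fun p : ℕ × Str =>
      bif decide (fst1 p.2 < p.2.length) then
        (bif (sh && decide (p.1 < fst1 p.2)) then Part.some 0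
         else bif (sh && decide (p.1 = fst1 p.2)) then Part.some 1
         else (h (fst1 p.2)).eval
          (encode ((bif sh then p.1 - fst1 p.2 - 1 else p.1), p.2.drop (fst1 p.2 + 1))))
      else Part.none) := by
    refine Partrec.cond c3 (Partrec.cond c6 (Computable.const 0).partrec ?_) c11
    exact Partrec.cond c7 (Computable.const 1).partrec c10
  refine c12.of_eq fun p => ?_
  unfold prog
  cases sh <;> by_cases g1 : fst1 p.2 < p.2.length <;> by_cases g2 : p.1 < fst1 p.2 <;>
    by_cases g3 : p.1 = fst1 p.2 <;> simp [g1, g2, g3]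

/-- a universal program `c`: it reads `n`, and then behaves as `h n` -/
theorem exists_univ (h : ℕ → Code) (hh : Computable h) :
    ∃ c : Code, ∀ (n : ℕ) (X Y : ℕ → Bool), Red (h n) X Y → Red c (pf n X) Y := by
  obtain ⟨c, hc⟩ := code_of (prog_partrec h hh false)
  refine ⟨c, fun n X Y hr m v => ?_⟩
  rw [← hr m v]
  constructor
  · rintro ⟨s, hs⟩
    rw [hc] at hs
    unfold prog at hs
    by_cases g : n < s
    · rw [if_pos (by rw [fst1_long n X g, seg_len]; exact g)] at hs
      simp only [Bool.false_eq_true, false_and, if_false] at hs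
      simp only [fst1_long n X g] at hs
      rw [drop_long n X g] at hs
      exact ⟨_, hs⟩
    · rw [if_neg (fst1_short n X (by omega))] at hs
      exact absurd hs (Part.notMem_none v)
  · rintro ⟨s, hs⟩
    refine ⟨s + n + 1, ?_⟩
    have g : n < s + n + 1 := by omega
    rw [hc]
    unfold prog
    rw [if_pos (by rw [fst1_long n X g, seg_len]; exact g)]
    simp only [Bool.false_eq_true, false_and, if_false]
    simp only [fst1_long n X g]
    rw [drop_long n X g]
    have e : s + n + 1 - n - 1 = s := by omega
    rw [e]
    exact hs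

/-- a universal program `c`: it reads `n`, and then behaves as `h n` on the rest -/
theorem exists_univ_pf (h : ℕ → Code) (hh : Computable h) :
    ∃ c : Code, ∀ (n : ℕ) (X Y : ℕ → Bool), Red (h n) X Y → Red c (pf n X) (pf n Y) := by
  obtain ⟨c, hc⟩ := code_of (prog_partrec h hh true)
  refine ⟨c, fun n X Y hr m v => ?_⟩
  have key : ∀ s, n < s → c.eval (encode (m, seg (pf n X) s)) =
      (if m < n then Part.some 0 else if m = n then Part.some 1 else
        (h n).eval (encode (m - n - 1, seg X (s - n - 1)))) := by
    intro s g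
    rw [hc]
    unfold prog
    rw [if_pos (by rw [fst1_long n X g, seg_len]; exact g)]
    simp only [true_and, if_true]
    simp only [fst1_long n X g]
    rw [drop_long n X g]
  have key2 : ∀ s, ¬ n < s → c.eval (encode (m, seg (pf n X) s)) = Part.none := by
    intro s g
    rw [hc]
    unfold prog
    rw [if_neg (fst1_short n X (by omega))]
  by_cases h1 : m < n
  · have e : (pf n Y m).toNat = 0 := by unfold pf; rw [if_pos h1]; rfl
    rw [e]
    constructor
    · rintro ⟨s, hs⟩
      by_cases g : n < s
      · rw [key s g, if_pos h1] at hs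
        exact Part.mem_some_iff.1 hs
      · rw [key2 s g] at hs
        exact absurd hs (Part.notMem_none v)
    · rintro rfl
      exact ⟨n + 1, by rw [key _ (by omega), if_pos h1]; exact Part.mem_some _⟩
  · by_cases h2 : m = n
    · have e : (pf n Y m).toNat = 1 := by unfold pf; rw [if_neg h1, if_pos h2]; rfl
      rw [e]
      constructor
      · rintro ⟨s, hs⟩
        by_cases g : n < s
        · rw [key s g, if_neg h1, if_pos h2] at hs
          exact Part.mem_some_iff.1 hs
        · rw [key2 s g] at hs
          exact absurd hs (Part.notMem_none v)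
      · rintro rfl
        exact ⟨n + 1, by rw [key _ (by omega), if_neg h1, if_pos h2]; exact Part.mem_some _⟩
    · have e : pf n Y m = Y (m - n - 1) := by unfold pf; rw [if_neg h1, if_neg h2]
      rw [e, ← hr (m - n - 1) v]
      constructor
      · rintro ⟨s, hs⟩
        by_cases g : n < s
        · rw [key s g, if_neg h1, if_neg h2] at hs
          exact ⟨_, hs⟩
        · rw [key2 s g] at hs
          exact absurd hs (Part.notMem_none v)
      · rintro ⟨s, hs⟩
        refine ⟨s + n + 1, ?_⟩
        rw [key _ (by omega), if_neg h1, if_neg h2]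
        have e : s + n + 1 - n - 1 = s := by omega
        rw [e]
        exact hs

/-- the program which reads a column of the oracle -/
theorem exists_col : ∃ col : ℕ → Code, Computable col ∧ ∀ (n : ℕ) (V : ℕ → Bool),
    Red (col n) V (fun m => V (Nat.pair n m)) := by
  have hf : Computable (fun a : ℕ × (ℕ × Str) => ((a.2.2[Nat.pair a.1 a.2.1]?).map
      (fun b => b.toNat) : Option ℕ)) := by
    refine Computable.option_map ?_ ?_
    · fun_prop
    · exact ((Primrec.dom_finite (fun b : Bool => b.toNat)).to_comp.comp Computable.snd).to₂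
  have hp : Partrec (fun a : ℕ => (Part.ofOption (decode (α := ℕ × (ℕ × Str)) a)).bind
      fun a => (Part.ofOption ((a.2.2[Nat.pair a.1 a.2.1]?).map (fun b => b.toNat)) : Part ℕ)) :=
    Partrec.bind (Computable.ofOption Computable.decode)
      ((Computable.ofOption hf).comp Computable.snd).to₂
  obtain ⟨c, hc⟩ := Nat.Partrec.Code.exists_code.1 (Partrec.nat_iff.1 hp)
  refine ⟨fun n => Nat.Partrec.Code.curry c n, ?_, fun n V m v => ?_⟩
  · exact (Nat.Partrec.Code.primrec₂_curry.comp (Primrec.const c) Primrec.id).to_comp
  · have key : ∀ s, (Nat.Partrec.Code.curry c n).eval (encode (m, seg V s)) =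
        (if Nat.pair n m < s then Part.some (V (Nat.pair n m)).toNat else Part.none) := by
      intro s
      rw [Nat.Partrec.Code.eval_curry, hc]
      change (Part.ofOption (decode (α := ℕ × (ℕ × Str)) (encode (n, (m, seg V s))))).bind _ = _
      rw [encodek]
      refine (Part.bind_some _ _).trans ?_
      change (Part.ofOption (((seg V s)[Nat.pair n m]?).map (fun b => b.toNat)) : Part ℕ) = _
      rw [seg_get]
      by_cases g : Nat.pair n m < s
      · rw [if_pos g, if_pos g]
        rfl
      · rw [if_neg g, if_neg g]
        rfl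
    constructor
    · rintro ⟨s, hs⟩
      rw [key] at hs
      by_cases g : Nat.pair n m < s
      · rw [if_pos g] at hs
        exact Part.mem_some_iff.1 hs
      · rw [if_neg g] at hs
        exact absurd hs (Part.notMem_none v)
    · rintro rfl
      exact ⟨Nat.pair n m + 1, by rw [key, if_pos (by omega)]; exact Part.mem_some _⟩

end Pool.Agent.H869R3.FN
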