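import Pool.Agent.H869R3.FN.LocF

/-!
The two-sided theorem: for all but finitely many members of a coding more than `k` programs are
needed.
-/

set_option autoImplicit false

namespace Pool.Agent.H869R3.FN

open Nat.Partrec (Code)
open Encodable
open Pool.Agent.H639.LU
open Pool.Agent.Helper446.Defs Pool.Agent.Helper446.Oracle

/-- the program which reads `n`, finds its index in the set of the even places of the oracle, and
runs the program of that index on the oracle -/
def prog3 (h : ℕ → Code) (p : ℕ × Str) : Part ℕ :=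
  if fst1 p.2 < p.2.length ∧ 2 * fst1 p.2 ≤ (p.2.drop (fst1 p.2 + 1)).length then
    (if p.1 < fst1 p.2 then Part.some 0
     else if p.1 = fst1 p.2 then Part.some 1
     else (h (cs2 (fst1 p.2) (p.2.drop (fst1 p.2 + 1)))).eval
      (encode (p.1 - fst1 p.2 - 1, (p.2.drop (fst1 p.2 + 1)).take
        (p.2.drop (fst1 p.2 + 1)).length.unpair.1)))
  else Part.none

theorem prog3_partrec (h : ℕ → Code) (hh : Computable h) : Partrec (prog3 h) := by
  have c1 : Computable (fun p : ℕ × Str => fst1 p.2) := fst1_prim.to_comp.comp Computable.snd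
  have c2 : Computable (fun p : ℕ × Str => p.2.length) :=
    Computable.list_length.comp Computable.snd
  have c3 : Computable (fun p : ℕ × Str => decide (fst1 p.2 < p.2.length)) :=
    (Primrec.nat_lt.decide.to_comp).comp c1 c2
  have c8 : Computable (fun p : ℕ × Str => p.2.drop (fst1 p.2 + 1)) :=
    Primrec.list_drop.to_comp.comp (Computable.succ.comp c1) Computable.snd
  have c9 : Computable (fun p : ℕ × Str => (p.2.drop (fst1 p.2 + 1)).length) :=
    Computable.list_length.comp c8
  have c4 : Computable (fun p : ℕ × Str =>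
      decide (2 * fst1 p.2 ≤ (p.2.drop (fst1 p.2 + 1)).length)) :=
    (Primrec.nat_le.decide.to_comp).comp (by fun_prop) c9
  have c5 : Computable (fun p : ℕ × Str => decide (fst1 p.2 < p.2.length) &&
      decide (2 * fst1 p.2 ≤ (p.2.drop (fst1 p.2 + 1)).length)) := by fun_prop
  have c6 : Computable (fun p : ℕ × Str => cs2 (fst1 p.2) (p.2.drop (fst1 p.2 + 1))) :=
    cs2_prim.to_comp.comp (c1.pair c8)
  have c7 : Computable (fun p : ℕ × Str => (p.2.drop (fst1 p.2 + 1)).take
        (p.2.drop (fst1 p.2 + 1)).length.unpair.1) :=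
    Primrec.list_take.to_comp.comp (Computable.fst.comp (Computable.unpair.comp c9)) c8
  have c10 : Partrec (fun p : ℕ × Str =>
      (h (cs2 (fst1 p.2) (p.2.drop (fst1 p.2 + 1)))).eval
      (encode (p.1 - fst1 p.2 - 1, (p.2.drop (fst1 p.2 + 1)).take
        (p.2.drop (fst1 p.2 + 1)).length.unpair.1))) :=
    Nat.Partrec.Code.eval_part.comp (hh.comp c6)
      (Computable.encode.comp (Computable.pair (f := fun p : ℕ × Str => p.1 - fst1 p.2 - 1)
        (by fun_prop) c7))
  have c11 : Computable (fun p : ℕ × Str => decide (p.1 < fst1 p.2)) :=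
    (Primrec.nat_lt.decide.to_comp).comp Computable.fst c1
  have c12 : Computable (fun p : ℕ × Str => decide (p.1 = fst1 p.2)) :=
    (Primrec.eq.decide.to_comp).comp Computable.fst c1
  have c13 : Partrec (fun p : ℕ × Str =>
      bif (decide (fst1 p.2 < p.2.length) &&
        decide (2 * fst1 p.2 ≤ (p.2.drop (fst1 p.2 + 1)).length)) then
        (bif decide (p.1 < fst1 p.2) then Part.some 0 else
          (bif decide (p.1 = fst1 p.2) then Part.some 1 else
            (h (cs2 (fst1 p.2) (p.2.drop (fst1 p.2 + 1)))).eval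
            (encode (p.1 - fst1 p.2 - 1, (p.2.drop (fst1 p.2 + 1)).take
              (p.2.drop (fst1 p.2 + 1)).length.unpair.1))))
      else Part.none) :=
    Partrec.cond c5 (Partrec.cond c11 (Computable.const 0).partrec
      (Partrec.cond c12 (Computable.const 1).partrec c10)) Partrec.none
  refine c13.of_eq fun p => ?_
  unfold prog3
  by_cases g1 : fst1 p.2 < p.2.length
  · by_cases g2 : 2 * fst1 p.2 ≤ (p.2.drop (fst1 p.2 + 1)).length
    · rw [decide_eq_true g1, decide_eq_true g2, if_pos ⟨g1, g2⟩, Bool.and_self, cond_true]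
      by_cases g3 : p.1 < fst1 p.2
      · rw [decide_eq_true g3, cond_true, if_pos g3]
      · rw [decide_eq_false g3, cond_false, if_neg g3]
        by_cases g4 : p.1 = fst1 p.2
        · rw [decide_eq_true g4, cond_true, if_pos g4]
        · rw [decide_eq_false g4, cond_false, if_neg g4]
    · rw [decide_eq_false g2, if_neg (fun hh => g2 hh.2), Bool.and_false, cond_false]
  · rw [decide_eq_false g1, if_neg (fun hh => g1 hh.1), Bool.false_and, cond_false]

theorem exists_univ3 (h : ℕ → Code) (hh : Computable h) :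
    ∃ c : Code, ∀ (n : ℕ) (N X Y : ℕ → Bool), (∀ m, X (2 * m) = N m) →
    Red (h (Nat.count (fun x => N x = true) n)) X Y → Red c (pf n X) (pf n Y) := by
  obtain ⟨c, hc⟩ := code_of (prog3_partrec h hh)
  refine ⟨c, fun n N X Y h0 hr m v => ?_⟩
  have key : ∀ s, n < s → 2 * n ≤ s - n - 1 → c.eval (encode (m, seg (pf n X) s)) =
      (if m < n then Part.some 0 else if m = n then Part.some 1 else
      (h (Nat.count (fun x => N x = true) n)).eval
        (encode (m - n - 1, seg X (min (s - n - 1).unpair.1 (s - n - 1))))) := by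
    intro s g g2
    rw [hc]
    unfold prog3
    simp only [fst1_long n X g, seg_len, drop_long n X g]
    rw [if_pos ⟨g, g2⟩, cs2_seg N X X h0 n _ g2]
    have e : (seg X (s - n - 1)).take (s - n - 1).unpair.1 =
        seg X (min (s - n - 1).unpair.1 (s - n - 1)) := by
      apply List.ext_getElem?
      intro i
      rw [List.getElem?_take, seg_get, seg_get]
      by_cases g3 : i < (s - n - 1).unpair.1
      · rw [if_pos g3]
        by_cases g4 : i < s - n - 1
        · rw [if_pos g4, if_pos (by omega)]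
        · rw [if_neg g4, if_neg (by omega)]
      · rw [if_neg g3, if_neg (by omega)]
    rw [e]
  have key2 : ∀ s, ¬ (n < s ∧ 2 * n ≤ s - n - 1) →
      c.eval (encode (m, seg (pf n X) s)) = Part.none := by
    intro s g
    rw [hc]
    unfold prog3
    by_cases g1 : n < s
    · simp only [fst1_long n X g1, seg_len, drop_long n X g1]
      rw [if_neg g]
    · rw [if_neg]
      rintro ⟨g3, -⟩
      exact fst1_short n X (by omega) g3
  have hbig : n < 3 * n + 1 ∧ 2 * n ≤ 3 * n + 1 - n - 1 := by omega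
  by_cases h1 : m < n
  · have e : (pf n Y m).toNat = 0 := by unfold pf; rw [if_pos h1]; rfl
    rw [e]
    constructor
    · rintro ⟨s, hs⟩
      by_cases g : n < s ∧ 2 * n ≤ s - n - 1
      · rw [key s g.1 g.2, if_pos h1] at hs
        exact Part.mem_some_iff.1 hs
      · rw [key2 s g] at hs
        exact absurd hs (Part.notMem_none v)
    · rintro rfl
      exact ⟨3 * n + 1, by rw [key _ hbig.1 hbig.2, if_pos h1]; exact Part.mem_some _⟩
  · by_cases h2 : m = n
    · have e : (pf n Y m).toNat = 1 := by unfold pf; rw [if_neg h1, if_pos h2]; rfl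
      rw [e]
      constructor
      · rintro ⟨s, hs⟩
        by_cases g : n < s ∧ 2 * n ≤ s - n - 1
        · rw [key s g.1 g.2, if_neg h1, if_pos h2] at hs
          exact Part.mem_some_iff.1 hs
        · rw [key2 s g] at hs
          exact absurd hs (Part.notMem_none v)
      · rintro rfl
        exact ⟨3 * n + 1, by
          rw [key _ hbig.1 hbig.2, if_neg h1, if_pos h2]; exact Part.mem_some _⟩
    · have e : pf n Y m = Y (m - n - 1) := by unfold pf; rw [if_neg h1, if_neg h2]
      rw [e, ← hr (m - n - 1) v]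
      constructor
      · rintro ⟨s, hs⟩
        by_cases g : n < s ∧ 2 * n ≤ s - n - 1
        · rw [key s g.1 g.2, if_neg h1, if_neg h2] at hs
          exact ⟨_, hs⟩
        · rw [key2 s g] at hs
          exact absurd hs (Part.notMem_none v)
      · rintro ⟨s, hs⟩
        have e1 : 2 * n + 2 * s ≤ Nat.pair s (2 * n + 2 * s) := Nat.right_le_pair _ _
        refine ⟨Nat.pair s (2 * n + 2 * s) + n + 1, ?_⟩
        have e2 : Nat.pair s (2 * n + 2 * s) + n + 1 - n - 1 = Nat.pair s (2 * n + 2 * s) := by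
          omega
        rw [key _ (by omega) (by rw [e2]; omega), if_neg h1, if_neg h2, e2, Nat.unpair_pair]
        have e3 : min s (Nat.pair s (2 * n + 2 * s)) = s := by omega
        rw [e3]
        exact hs

theorem re_finset {V : ℕ → Bool} (F : Finset Code) : REIn (St V) (fun l : Code => l ∈ F) := by
  classical
  induction F using Finset.induction_on with
  | empty =>
    refine (REIn.of_re (S := fun l : Code => encode l = encode l + 1)
      (Pool.Agent.Helper446.RE.eq (by fun_prop) (by fun_prop))).of_eq fun l => ?_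
    simp
  | insert x F _ ih =>
    refine (REIn.or (S := fun l : Code => l = x) (T := fun l : Code => l ∈ F)
      (REIn.of_re (Pool.Agent.Helper446.RE.eq (by fun_prop) (by fun_prop))) ih).of_eq
      fun l => ?_
    rw [Finset.mem_insert]

/-- `k` programs suffice for the equivalence of `W r X` and `W r (S n X)`, on a cone -/
def Suff (r : Code) (S : ℕ → (ℕ → Bool) → ℕ → Bool) (k n : ℕ) : Prop :=
  ∃ M : Finset Code, M.card ≤ k ∧ ∃ z : ℕ → Bool, ∀ X : ℕ → Bool, le z X →
    (∃ l ∈ M, Red l (ch (W r X)) (ch (W r (S n X)))) ∧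
    ∃ l ∈ M, Red l (ch (W r (S n X))) (ch (W r X))

theorem two_sided_inf (r : Code) (z₀ : ℕ → Bool) (hr : Solves r z₀)
    (S : ℕ → (ℕ → Bool) → ℕ → Bool) (hS : IsCoding S) (h1 : FinTwo r) (k : ℕ) :
    {n : ℕ | Suff r S k n}.Finite := by
  classical
  by_contra hinf
  set B : Set ℕ := {n : ℕ | Suff r S k n} with hB
  obtain ⟨κ, hκ, hκ'⟩ := K7
  obtain ⟨a, b, hab⟩ := id hS
  have c1 : Computable (fun n : ℕ => Denumerable.ofNat Code n.unpair.1) :=
    (Computable.ofNat Code).comp (Computable.fst.comp Computable.unpair)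
  have c2 : Computable (fun n : ℕ => Denumerable.ofNat Code n.unpair.2) :=
    (Computable.ofNat Code).comp (Computable.snd.comp Computable.unpair)
  obtain ⟨i1, hi1⟩ := exists_univ3 _ c1
  obtain ⟨j1, hj1⟩ := exists_univ3 _ c2
  obtain ⟨Ls, zs, hLs⟩ := h1 (κ (κ (b, i1), a)) (κ (κ (b, j1), a))
  have hch : ∀ n : ℕ, ∃ (M : Finset Code) (z : ℕ → Bool), M.card ≤ k ∧ (n ∈ B →
      ∀ X : ℕ → Bool, le z X → (∃ l ∈ M, Red l (ch (W r X)) (ch (W r (S n X)))) ∧
        ∃ l ∈ M, Red l (ch (W r (S n X))) (ch (W r X))) := by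
    intro n
    by_cases hn : n ∈ B
    · obtain ⟨M, hM, z, hz⟩ := hn
      exact ⟨M, z, hM, fun _ => hz⟩
    · exact ⟨∅, fun _ => false, by simp, fun h => absurd h hn⟩
  choose M zM hMc hM using hch
  set N : ℕ → Bool := fun n => decide (n ∈ B) with hNdef
  have hN : {n | N n = true}.Infinite := by
    have e : {n | N n = true} = B := by
      ext n
      simp [hNdef]
    rw [e]
    exact hinf
  set F : Set (ℕ → Bool) := {Y | ∀ m, Y (2 * m) = N m} with hFdef
  have hFc : Clo F := by
    intro Y hY m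
    obtain ⟨Z, hZ, hZ'⟩ := hY (2 * m + 1)
    have h2 := congrArg (fun l : Str => l[2 * m]?) hZ'
    simp only [seg_get] at h2
    rw [if_pos (by omega), if_pos (by omega)] at h2
    rw [← Option.some_inj.1 h2]
    exact hZ m
  have hFd : Cof F := by
    intro z
    obtain ⟨X, hX0, hX1⟩ := joinEven N z
    exact ⟨X, hX0, K4.2.2.2 X z (fun n => 2 * n + 1) (by fun_prop) (fun n => by rw [hX1])⟩
  obtain ⟨z₁, hz₁⟩ := main2F allP K7 K9 r z₀ (fun X hX => (hr X hX).1) F hFc hFd
    (k * (Ls.card * k))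
  -- the parameters
  set par : ℕ → ℕ → Bool := fun m => if m = 0 then z₀ else if m = 1 then z₁ else
    if m = 2 then zs else if m = 3 then
      (fun q => decide (Denumerable.ofNat Code q.unpair.2 ∈ M q.unpair.1)) else zM (m - 4)
    with hpar
  obtain ⟨X, hX0, hX1⟩ := joinEven N (muN par)
  have hNX : le N X := K4.2.2.2 X N (fun n => 2 * n) (by fun_prop) (fun n => by rw [hX0])
  have hpX : le (muN par) X :=
    K4.2.2.2 X (muN par) (fun n => 2 * n + 1) (by fun_prop) (fun n => by rw [hX1])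
  have g0 : le z₀ X := by have := le_trans' (le_muN par 0) hpX; simpa [hpar] using this
  have g1 : le z₁ X := by have := le_trans' (le_muN par 1) hpX; simpa [hpar] using this
  have g2 : le zs X := by have := le_trans' (le_muN par 2) hpX; simpa [hpar] using this
  have g3 : le (fun q => decide (Denumerable.ofNat Code q.unpair.2 ∈ M q.unpair.1)) X := by
    have := le_trans' (le_muN par 3) hpX
    simpa [hpar] using this
  have g4 : ∀ n, le (zM n) X := by
    intro n
    have h5 := le_trans' (le_muN par (n + 4)) hpX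
    have e0 : ¬ (n + 4 = 0) := by omega
    have e1 : ¬ (n + 4 = 1) := by omega
    have e2 : ¬ (n + 4 = 2) := by omega
    have e3 : ¬ (n + 4 = 3) := by omega
    have e4 : n + 4 - 4 = n := by omega
    simp only [hpar, e0, e1, e2, e3, e4, if_false] at h5
    exact h5
  obtain ⟨-, hXV, hJ⟩ := hr X g0
  set V := ch (W r X) with hV
  have hNV : le N V := le_trans' hNX hXV
  set p : ℕ → Prop := fun x => N x = true with hp
  have hcnt : REIn (St V) (fun q : ℕ => N q.unpair.1 = true ∧
      Nat.count (fun x => N x = true) q.unpair.1 = q.unpair.2) :=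
    K4.1 N V hNV _ (cnt_re N)
  have hmem : REIn (St V) (fun w : ℕ × Code => w.2 ∈ M w.1) := by
    have h6 := (turingReducible_iff.1 (le_trans' g3 hXV)).1
    refine (REIn.comp (f := fun x : ℕ × Code => Nat.pair x.1 (encode x.2)) h6
      (by fun_prop)).of_eq fun x => ?_
    change decide (Denumerable.ofNat Code (Nat.unpair (Nat.pair x.1 (encode x.2))).2 ∈
      M (Nat.unpair (Nat.pair x.1 (encode x.2))).1) = true ↔ _
    rw [Nat.unpair_pair, decide_eq_true_iff, Denumerable.ofNat_encode]
  have hS' : REIn (St V) (fun q : ℕ => ∃ w : (Code × Code × Code) × (ℕ × Code × Code × Code),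
      q = encode w.1 ∧ (N w.2.1 = true ∧ Nat.count (fun x => N x = true) w.2.1 =
        Nat.pair (encode w.1.1) (encode w.1.2.1)) ∧ w.2.2.1 ∈ M w.2.1 ∧ w.2.2.2.1 ∈ Ls ∧
        w.2.2.2.2 ∈ M w.2.1 ∧ w.1.2.2 = κ (κ (w.2.2.1, w.2.2.2.1), w.2.2.2.2)) := by
    refine REIn.ex (S := fun (q : ℕ) (w : (Code × Code × Code) × (ℕ × Code × Code × Code)) =>
      q = encode w.1 ∧ (N w.2.1 = true ∧ Nat.count (fun x => N x = true) w.2.1 =
        Nat.pair (encode w.1.1) (encode w.1.2.1)) ∧ w.2.2.1 ∈ M w.2.1 ∧ w.2.2.2.1 ∈ Ls ∧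
        w.2.2.2.2 ∈ M w.2.1 ∧ w.1.2.2 = κ (κ (w.2.2.1, w.2.2.2.1), w.2.2.2.2)) ?_
    refine REIn.and ?_ (REIn.and ?_ (REIn.and ?_ (REIn.and ?_ (REIn.and ?_ ?_))))
    · exact REIn.of_re (Pool.Agent.Helper446.RE.eq (by fun_prop) (by fun_prop))
    · refine (REIn.comp (S := fun q : ℕ => N q.unpair.1 = true ∧
          Nat.count (fun x => N x = true) q.unpair.1 = q.unpair.2)
        (f := fun x : ℕ × ((Code × Code × Code) × (ℕ × Code × Code × Code)) =>
          Nat.pair x.2.2.1 (Nat.pair (encode x.2.1.1) (encode x.2.1.2.1))) hcnt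
          (by fun_prop)).of_eq fun x => ?_
      rw [Nat.unpair_pair]
    · exact REIn.comp (S := fun w : ℕ × Code => w.2 ∈ M w.1)
        (f := fun x : ℕ × ((Code × Code × Code) × (ℕ × Code × Code × Code)) =>
          (x.2.2.1, x.2.2.2.1)) hmem (by fun_prop)
    · exact REIn.comp (S := fun l : Code => l ∈ Ls)
        (f := fun x : ℕ × ((Code × Code × Code) × (ℕ × Code × Code × Code)) => x.2.2.2.2.1)
        (re_finset Ls) (by fun_prop)
    · exact REIn.comp (S := fun w : ℕ × Code => w.2 ∈ M w.1)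
        (f := fun x : ℕ × ((Code × Code × Code) × (ℕ × Code × Code × Code)) =>
          (x.2.2.1, x.2.2.2.2.2)) hmem (by fun_prop)
    · have hk1 : Computable (fun x : ℕ × ((Code × Code × Code) × (ℕ × Code × Code × Code)) =>
          κ (x.2.2.2.1, x.2.2.2.2.1)) := hκ.comp (by fun_prop)
      have hk2 : Computable (fun x : ℕ × ((Code × Code × Code) × (ℕ × Code × Code × Code)) =>
          κ (κ (x.2.2.2.1, x.2.2.2.2.1), x.2.2.2.2.2)) := hκ.comp (hk1.pair (by fun_prop))
      exact REIn.of_re (Pool.Agent.Helper446.RE.eq (by fun_prop) hk2)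
  obtain ⟨e', he'⟩ := K10 V _ hS'
  have hmain : ∀ i j l : Code, W e' V (encode (i, j, l)) ↔ ∃ (n : ℕ) (l₁ l₀ l₂ : Code),
      (N n = true ∧ Nat.count (fun x => N x = true) n = Nat.pair (encode i) (encode j)) ∧
      l₁ ∈ M n ∧ l₀ ∈ Ls ∧ l₂ ∈ M n ∧ l = κ (κ (l₁, l₀), l₂) := by
    intro i j l
    rw [← he']
    constructor
    · rintro ⟨⟨⟨i', j', l'⟩, ⟨n, l₁, l₀, l₂⟩⟩, hq, hq1, hq2, hq3, hq4, hq5⟩
      have hq' := Encodable.encode_injective hq
      simp only [Prod.mk.injEq] at hq'
      obtain ⟨rfl, rfl, rfl⟩ := hq'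
      exact ⟨n, l₁, l₀, l₂, hq1, hq2, hq3, hq4, hq5⟩
    · rintro ⟨n, l₁, l₀, l₂, hq1, hq2, hq3, hq4, hq5⟩
      exact ⟨⟨⟨i, j, l⟩, ⟨n, l₁, l₀, l₂⟩⟩, rfl, hq1, hq2, hq3, hq4, hq5⟩
  have hnth : ∀ m : ℕ, N (Nat.nth p m) = true ∧ Nat.count p (Nat.nth p m) = m := fun m =>
    ⟨Nat.nth_mem_of_infinite hN m, Nat.count_nth_of_infinite hN m⟩
  refine hJ (hz₁ X g1 V hXV e' (fun i j => ?_) (fun i j Y hYF hXY hYX => ?_))
  · obtain ⟨hn1, hn2⟩ := hnth (Nat.pair (encode i) (encode j))
    set n := Nat.nth p (Nat.pair (encode i) (encode j)) with hn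
    have hsub : {l : Code | W e' V (encode (i, j, l))} ⊆
        (((M n ×ˢ (Ls ×ˢ M n)).image
          (fun q : Code × Code × Code => κ (κ (q.1, q.2.1), q.2.2)) : Finset Code) :
            Set Code) := by
      intro l hl
      obtain ⟨n', l₁, l₀, l₂, hq1, hq2, hq3, hq4, hq5⟩ := (hmain i j l).1 hl
      have hnn : n' = n := Nat.count_injective (p := p) hq1.1 hn1 (by rw [hn2]; exact hq1.2)
      rw [hnn] at hq2 hq4
      rw [Finset.mem_coe, Finset.mem_image]
      refine ⟨(l₁, l₀, l₂), ?_, hq5.symm⟩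
      rw [Finset.mem_product, Finset.mem_product]
      exact ⟨hq2, hq3, hq4⟩
    refine (Set.encard_le_encard hsub).trans ?_
    rw [Set.encard_coe_eq_coe_finsetCard]
    have h5 : ((M n ×ˢ (Ls ×ˢ M n)).image
        (fun q : Code × Code × Code => κ (κ (q.1, q.2.1), q.2.2))).card ≤
          k * (Ls.card * k) := by
      refine Finset.card_image_le.trans ?_
      rw [Finset.card_product, Finset.card_product]
      exact Nat.mul_le_mul (hMc n) (Nat.mul_le_mul (le_refl _) (hMc n))
    exact_mod_cast h5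
  · obtain ⟨hn1, hn2⟩ := hnth (Nat.pair (encode i) (encode j))
    set n := Nat.nth p (Nat.pair (encode i) (encode j)) with hn
    have hnB : n ∈ B := by simpa [hNdef] using hn1
    obtain ⟨⟨l₁, hl₁, hl₁'⟩, -⟩ := hM n hnB X (g4 n)
    obtain ⟨-, ⟨l₂, hl₂, hl₂'⟩⟩ := hM n hnB Y (le_trans' (g4 n) ((le_iff Y X).2 ⟨j, hYX⟩))
    have e3 : Nat.count (fun x => N x = true) n = Nat.pair (encode i) (encode j) := hn2
    have r1 : Red (κ (κ (b, i1), a)) (S n X) (S n Y) := by
      refine hκ' _ _ _ _ _ (hκ' _ _ _ _ _ (hab n X).2 (hi1 n N X Y hX0 ?_)) (hab n Y).1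
      rw [e3, Nat.unpair_pair, Denumerable.ofNat_encode]
      exact hXY
    have r2 : Red (κ (κ (b, j1), a)) (S n Y) (S n X) := by
      refine hκ' _ _ _ _ _ (hκ' _ _ _ _ _ (hab n Y).2 (hj1 n N Y X hYF ?_)) (hab n X).1
      rw [e3, Nat.unpair_pair, Denumerable.ofNat_encode]
      exact hYX
    obtain ⟨l₀, hl₀, hl₀'⟩ := hLs (S n X) (S n Y) (le_trans' g2 (le_S hS n X)) r1 r2
    exact ⟨κ (κ (l₁, l₀), l₂), (hmain i j _).2 ⟨n, l₁, l₀, l₂, ⟨hn1, hn2⟩, hl₁, hl₀, hl₂, rfl⟩,
      hκ' _ _ _ _ _ (hκ' _ _ _ _ _ hl₁' hl₀') hl₂'⟩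

end Pool.Agent.H869R3.FN
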